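import Pool.Agent.N864.GQ.Tame

/-!
# Nested regular centres
-/

set_option autoImplicit false
set_option linter.unusedSectionVars false
set_option linter.unusedVariables false

namespace Pool.Agent.N864.GR

open IsLocalRing Pool.Agent.Y223.G Pool.Agent.TH188.QS Pool.Agent.W418.LU2 Pool.Agent.TH188.ARC
  Pool.Agent.Y223.INV Pool.Agent.N864.GQ

/-- Extension of independent elements of an ideal `J` with `J ∩ m ^ 2 = m J` to generators. -/
theorem ind_ext {T : Type} [CommRing T] [IsLocalRing T] [IsNoetherianRing T] (J : Ideal T)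
    (hm : J ≤ maximalIdeal T)
    (hJ : ∀ a ∈ J, a ∈ maximalIdeal T ^ 2 → a ∈ maximalIdeal T • J) {a : ℕ} (x : Fin a → T)
    (hxJ : ∀ i, x i ∈ J) (hx : Ind x) :
    ∃ (c : ℕ) (y : Fin c → T), Ind (Sum.elim x y) ∧ J = Ideal.span (Set.range (Sum.elim x y)) := by
  classical
  let f : J → CotangentSpace T := fun a => (maximalIdeal T).toCotangent ⟨a, hm a.2⟩
  let fx : Fin a → CotangentSpace T := fun i => f ⟨x i, hxJ i⟩
  have hli : LinearIndependent (ResidueField T) fx := (ind_iff (fun i => hm (hxJ i))).1 hx
  obtain ⟨b, hb, hsb, hbs, hbl⟩ := exists_linearIndepOn_id_extension (K := ResidueField T)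
    hli.linearIndepOn_id (show Set.range fx ⊆ Set.range f by
      rintro _ ⟨i, rfl⟩
      exact ⟨_, rfl⟩)
  have hbl' : LinearIndependent (ResidueField T) (fun v : b => (v : CotangentSpace T)) := hbl
  have hfin : Finite b := hbl'.finite
  have hfin' : Finite (b \ Set.range fx : Set (CotangentSpace T)) :=
    (Set.toFinite b).subset Set.sdiff_subset
  obtain ⟨c, ⟨e⟩⟩ := Finite.exists_equiv_fin (b \ Set.range fx : Set (CotangentSpace T))
  have hy : ∀ i : Fin c, ∃ a, f a = (e.symm i : CotangentSpace T) := fun i => hb (e.symm i).2.1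
  choose y hy using hy
  let z : Fin a ⊕ Fin c → J := Sum.elim (fun i => ⟨x i, hxJ i⟩) y
  have hzx : ∀ k, (z k : T) = Sum.elim x (fun i => (y i : T)) k := by
    rintro (i | i) <;> rfl
  let g : Fin a ⊕ Fin c → b := Sum.elim (fun i => ⟨fx i, hsb ⟨i, rfl⟩⟩)
    (fun i => ⟨e.symm i, (e.symm i).2.1⟩)
  have hg : ∀ k, f (z k) = g k := by
    rintro (i | i)
    · rfl
    · exact hy i
  have hgi : Function.Injective g := by
    rintro (i | i) (i' | i') h
    · have h1 : fx i = fx i' := congrArg Subtype.val h
      rw [hli.injective h1]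
    · exfalso
      have h1 : fx i = (e.symm i' : CotangentSpace T) := congrArg Subtype.val h
      exact (e.symm i').2.2 ⟨i, h1⟩
    · exfalso
      have h1 : (e.symm i : CotangentSpace T) = fx i' := congrArg Subtype.val h
      exact (e.symm i).2.2 ⟨i', h1.symm⟩
    · have h1 : (g (Sum.inr i) : CotangentSpace T) = g (Sum.inr i') := congrArg Subtype.val h
      have h2 : e.symm i = e.symm i' := Subtype.ext h1
      rw [e.symm.injective h2]
  have hgs : Function.Surjective g := by
    rintro ⟨v, hv⟩
    by_cases hvr : v ∈ Set.range fx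
    · obtain ⟨i, rfl⟩ := hvr
      exact ⟨Sum.inl i, rfl⟩
    · refine ⟨Sum.inr (e ⟨v, hv, hvr⟩), ?_⟩
      apply Subtype.ext
      change (e.symm (e ⟨v, hv, hvr⟩) : CotangentSpace T) = v
      rw [Equiv.symm_apply_apply]
  have hind : Ind (Sum.elim x fun i => (y i : T)) := by
    have h0 : ∀ k, Sum.elim x (fun i => (y i : T)) k ∈ maximalIdeal T := by
      intro k
      rw [← hzx]
      exact hm (z k).2
    rw [ind_iff h0]
    have h1 : (fun k => ((maximalIdeal T).toCotangent ⟨Sum.elim x (fun i => (y i : T)) k, h0 k⟩ :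
        CotangentSpace T)) = (fun v : b => (v : CotangentSpace T)) ∘ g := by
      funext k
      rw [Function.comp_apply, ← hg k]
      congr 1
      exact Subtype.ext (hzx k).symm
    rw [h1]
    exact hbl'.comp _ hgi
  refine ⟨c, fun i => (y i : T), hind, ?_⟩
  have hmemI : ∀ k, (z k : T) ∈ Ideal.span (Set.range (Sum.elim x fun i => (y i : T))) := by
    intro k
    rw [hzx]
    exact Ideal.subset_span ⟨k, rfl⟩
  apply le_antisymm
  swap
  · rw [Ideal.span_le]
    rintro _ ⟨k, rfl⟩
    rw [← hzx]
    exact (z k).2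
  set I := Ideal.span (Set.range (Sum.elim x fun i => (y i : T))) with hI
  have hIJ : I ≤ J := by
    rw [hI, Ideal.span_le]
    rintro _ ⟨k, rfl⟩
    rw [← hzx]
    exact (z k).2
  have h2 : ∀ a ∈ J, ∃ i ∈ I, a - i ∈ maximalIdeal T ^ 2 := by
    intro a' ha
    have h3 : f ⟨a', ha⟩ ∈ Submodule.span (ResidueField T) (Set.range fun k => f (z k)) := by
      have h4 : Set.range (fun k => f (z k)) = b := by
        ext v
        constructor
        · rintro ⟨k, rfl⟩
          change f (z k) ∈ b
          rw [hg k]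
          exact (g k).2
        · intro hv
          obtain ⟨k, hk⟩ := hgs ⟨v, hv⟩
          refine ⟨k, ?_⟩
          change f (z k) = v
          rw [hg k, hk]
      rw [h4]
      exact hbs ⟨⟨a', ha⟩, rfl⟩
    rw [Submodule.mem_span_range_iff_exists_fun] at h3
    obtain ⟨r₀, hr₀⟩ := h3
    choose r hr using fun i => residue_surjective (R := T) (r₀ i)
    refine ⟨∑ k, r k * (z k : T), Ideal.sum_mem _ fun k _ =>
      Ideal.mul_mem_left _ _ (hmemI k), ?_⟩
    have h6 : ((maximalIdeal T).toCotangent (⟨a', hm ha⟩ -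
        ∑ k, r k • (⟨(z k : T), hm (z k).2⟩ : maximalIdeal T)) : CotangentSpace T) = 0 := by
      rw [map_sub, map_sum]
      have h7 : ∀ k, (maximalIdeal T).toCotangent
          (r k • (⟨(z k : T), hm (z k).2⟩ : maximalIdeal T)) = r₀ k • f (z k) := by
        intro k
        rw [map_smul, ← hr k]
        rfl
      rw [Finset.sum_congr rfl fun k _ => h7 k, hr₀]
      exact sub_self _
    rw [Ideal.toCotangent_eq_zero] at h6
    have h8 : (((⟨a', hm ha⟩ - ∑ k, r k • (⟨(z k : T), hm (z k).2⟩ : maximalIdeal T) :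
        maximalIdeal T)) : T) = a' - ∑ k, r k * (z k : T) := by
      rw [AddSubgroupClass.coe_sub, AddSubmonoidClass.coe_finsetSum]
      rfl
    rwa [h8] at h6
  have h3 : J ≤ I ⊔ maximalIdeal T • J := by
    intro a' ha
    obtain ⟨i, hi, hai⟩ := h2 a' ha
    have h5 := hJ (a' - i) (Ideal.sub_mem _ ha (hIJ hi)) hai
    have h6 : a' = i + (a' - i) := by ring
    rw [h6]
    exact Submodule.add_mem_sup hi h5
  exact Submodule.le_of_le_smul_of_le_jacobson_bot (IsNoetherian.noetherian J)
    (IsLocalRing.maximalIdeal_le_jacobson ⊥) h3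

section regp

variable {K : Type} [Field K] {W : ValuationSubring K} {Q : Subring K}

/-- Families of parameters and their subfamilies. -/
theorem regP_sub {A P : Subring K} {ι κ : Type} [Fintype ι] [Fintype κ] {x : ι → K}
    (h : RegP A P x) (f : κ → ι) (hf : Function.Injective f) : RegP A P (fun k => x (f k)) where
  PA := h.PA
  ne := fun k => h.ne (f k)
  mem := fun k => h.mem (f k)
  reg := h.reg
  inv := h.inv
  ind := by
    classical
    have hloc : IsLocalRing P := h.reg.toIsLocalRing
    intro c hc hs k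
    have h1 : ∀ i ∉ Set.range f, Function.extend f c 0 i = 0 := by
      intro i hi
      exact Function.extend_apply' _ _ _ hi
    have h2 := h.ind (Function.extend f c 0) (by
      intro i hi
      by_cases hif : i ∈ Set.range f
      · obtain ⟨k, rfl⟩ := hif
        rw [hf.extend_apply]
        exact hc k hi
      · exact h1 i hif) (by
      rw [← Fintype.sum_of_injective f hf
        (fun k => c k * (⟨x (f k), h.mem (f k)⟩ : P))
        (fun i => Function.extend f c 0 i * (⟨x i, h.mem i⟩ : P))]
      · exact hs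
      · intro i hi
        rw [h1 i hi, zero_mul]
      · intro k
        rw [hf.extend_apply]) (f k)
    rwa [hf.extend_apply] at h2

lemma regP_ind' {ι : Type} [Fintype ι] (hQW : Q ≤ W.toSubring) (hIC : IC W.toSubring Q)
    (hreg : IsRegularLocalRing Q) {y : ι → Q} (hy : Ind y) :
    RegP W.toSubring Q (fun i => (y i : K)) where
  PA := hQW
  ne := fun i h => hy.ne_zero i (Subtype.ext h)
  mem := fun i => (y i).2
  reg := hreg
  inv := hIC
  ind := IndN.of_ind (id : ι → ι) Function.injective_id (fun i _ => ⟨i, rfl⟩) hy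

end regp

end Pool.Agent.N864.GR
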