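import Pool.Agent.N864.GR.Wild

/-!
# The inertia groups outside of the vertex, and the quotient
-/

set_option autoImplicit false
set_option linter.unusedSectionVars false
set_option linter.unusedVariables false

namespace Pool.Agent.N864.GR

open IsLocalRing Pool.Agent.TH188.QS Pool.Agent.TH188.ARC Pool.Agent.W418.LU2
  Pool.Agent.Y223.G Pool.Agent.Y223.INV Pool.Agent.N864.GQ

section

variable {O K : Type} [CommRing O] [Field K] [Algebra O K] {σ : K ≃ₐ[O] K}
  {W : ValuationSubring K} {Q : Subring K}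

/-- Tame fixed points are good. -/
theorem gd_of_tame1 {p : ℕ} (hσ : ∀ x, σ^[p] x = x) (hQW : Q ≤ W.toSubring)
    (hIC : IC W.toSubring Q) (hreg : IsRegularLocalRing Q) (hF : Fx σ W Q) (hp : IsUnit (p : Q)) :
    ∃ (c : ℕ) (z : Fin c → K), Gd σ W Q 1 z := by
  classical
  have hloc : IsLocalRing Q := hreg.toIsLocalRing
  have hmax : ∀ y : Q, y ∈ maximalIdeal Q ↔ NU W.toSubring (y : K) := mem_max_iff hQW hIC
  have hit : ∀ (i : ℕ) (x : Q), (((qact hF)^[i] x : Q) : K) = σ^[i] (x : K) := by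
    intro i
    induction i with
    | zero => exact fun x => rfl
    | succ i ih =>
      intro x
      rw [Function.iterate_succ_apply, Function.iterate_succ_apply, ih]
      rfl
  have hq : ∀ x, (qact hF)^[p] x = x := fun x => Subtype.ext (by rw [hit, hσ])
  have hqm : ∀ x, qact hF x - x ∈ maximalIdeal Q := fun x => (hmax _).2 (hF x x.2).2
  have hJm : fixR (qact hF) ≤ maximalIdeal Q := by
    unfold fixR
    rw [Ideal.span_le]
    rintro _ ⟨y, rfl⟩
    exact hqm y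
  obtain ⟨c, y, hy, hyJ⟩ := ideal_ind' (fixR (qact hF)) hJm (tame_ideal hq hp hqm)
  refine ⟨c, fun i => (y i : K), one_ne_zero, regP_of_ind hQW hIC hreg hy, ?_⟩
  have key : ∀ (S : Set Q), Submodule.span Q ((fun y : Q => (y : K)) '' S) =
      Submodule.map (Algebra.linearMap Q K) (Ideal.span S) := by
    intro S
    exact (Submodule.map_span (Algebra.linearMap Q K) S).symm
  have h1 : {y : K | ∃ x ∈ Q, y = σ x - x} =
      (fun y : Q => (y : K)) '' {x : Q | ∃ a, x = qact hF a - a} := by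
    ext y
    constructor
    · rintro ⟨x, hx, rfl⟩
      exact ⟨qact hF ⟨x, hx⟩ - ⟨x, hx⟩, ⟨_, rfl⟩, rfl⟩
    · rintro ⟨_, ⟨x, rfl⟩, rfl⟩
      exact ⟨x, x.2, rfl⟩
  have h2 : (Set.range fun i => (1 : K) * y i) = (fun y : Q => (y : K)) '' Set.range y := by
    ext x
    constructor
    · rintro ⟨i, rfl⟩
      exact ⟨y i, ⟨i, rfl⟩, (one_mul _).symm⟩
    · rintro ⟨_, ⟨i, rfl⟩, rfl⟩
      exact ⟨i, one_mul _⟩
  rw [h1, h2, key, key, ← hyJ]
  rfl

end

variable {O K G : Type} [CommRing O] [Field K] [Algebra O K] [Group G]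
  {ρ : G →* (K ≃ₐ[O] K)} {A : Subalgebra O K}

/-- The condition on the local ring `Q` of a point: it is regular, and its inertia group is trivial;
or of prime order `p` (not in `T`), generated by `τ`, and the ideal of the fixed points of `τ` is
`t (z i)`, with elements `z i` of a regular system of parameters, and `τ` acts as a scalar modulo
its square; or tame and cyclic, of an order whose prime divisors are in `T`. -/
def PT2 (T : ℕ → Prop) (ρ : G →* (K ≃ₐ[O] K)) (W : ValuationSubring K) (Q : Subring K) : Prop :=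
  IsRegularLocalRing Q ∧ ((∀ g, Fx (ρ g) W Q → g = 1) ∨
    (∃ (p : ℕ) (τ : G), p.Prime ∧ ¬ T p ∧ orderOf τ = p ∧
      (∀ g, Fx (ρ g) W Q → g ∈ Subgroup.zpowers τ) ∧
      (∃ (t : K) (c : ℕ) (z : Fin c → K), Gd (ρ τ) W Q t z) ∧
      ∃ hF : Fx (ρ τ) W Q, ∃ u, ∀ x ∈ fixR (qact hF), qact hF x - u * x ∈ fixR (qact hF) ^ 2) ∨
    ∃ σ : G, (∀ g, Fx (ρ g) W Q ↔ g ∈ Subgroup.zpowers σ) ∧ IsUnit ((orderOf σ : ℕ) : Q) ∧
      ∀ l : ℕ, l.Prime → l ∣ orderOf σ → T l)

section fin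

variable [Fintype G] (hst : ∀ g, ∀ a ∈ A, ρ g a ∈ A) {W : ValuationSubring K}

open scoped Classical in
/-- The nontrivial elements of a cyclic group. -/
noncomputable def cy (σ : G) : Finset G :=
  Finset.univ.filter (fun g : G => g ∈ Subgroup.zpowers σ ∧ g ≠ 1)

lemma mem_cy {σ g : G} : g ∈ cy σ ↔ g ∈ Subgroup.zpowers σ ∧ g ≠ 1 := by
  classical
  unfold cy
  rw [Finset.mem_filter]
  exact ⟨fun h => h.2, fun h => ⟨Finset.mem_univ _, h⟩⟩

lemma cy_sub (σ : G) : cy σ ⊆ NT G := fun g hg => mem_NT.2 (mem_cy.1 hg).2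

lemma fixI_mul_le (g h : G) : fixI hst (g * h) ≤ fixI hst g ⊔ fixI hst h := by
  unfold fixI
  rw [Ideal.span_le]
  rintro _ ⟨a, rfl⟩
  rw [act_mul]
  have e : act hst g (act hst h a) - a =
      (act hst g (act hst h a) - act hst h a) + (act hst h a - a) := by ring
  rw [e]
  exact Submodule.add_mem_sup (fixI_mem hst g _) (fixI_mem hst h _)

lemma fixI_sup {σ g h : G} (hg : g ∈ cy σ) (hh : h ∈ cy σ) :
    ∃ l ∈ cy σ, fixI hst g ⊔ fixI hst h = fixI hst l := by
  obtain ⟨l, hl, hl1, ⟨n, hn⟩, ⟨n', hn'⟩, a, b, hab⟩ :=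
    cyc_sup (mem_cy.1 hg).1 (mem_cy.1 hh).1 (mem_cy.1 hg).2
  refine ⟨l, mem_cy.2 ⟨hl, hl1⟩, le_antisymm (sup_le ?_ ?_) ?_⟩
  · rw [hn]
    exact fixI_pow_le hst l n
  · rw [hn']
    exact fixI_pow_le hst l n'
  · rw [hab]
    exact (fixI_mul_le hst _ _).trans (sup_le_sup (fixI_pow_le hst g a) (fixI_pow_le hst h b))

lemma rg_of_gd (hAW : A.toSubring ≤ W.toSubring) {g : G}
    (hF : Fx (ρ g) W (lo W.toSubring A.toSubring)) {c : ℕ} {z : Fin c → K}
    (hG : Gd (ρ g) W (lo W.toSubring A.toSubring) 1 z) :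
    Rg W (lo W.toSubring A.toSubring) (Gs hst g) := by
  refine ⟨c, z, hG.reg, ?_⟩
  have h1 : (Set.range fun i => 1 * z i) = Set.range z := by
    congr 1
    funext i
    exact one_mul _
  rw [← h1, ← hG.eq]
  apply le_antisymm
  · rw [Submodule.span_le]
    rintro _ ⟨l, hl, rfl⟩
    unfold fixI at hl
    induction hl using Submodule.span_induction with
    | mem x hx =>
      obtain ⟨a, rfl⟩ := hx
      exact Submodule.subset_span ⟨a, le_lo _ _ a.2, rfl⟩
    | zero => exact Submodule.zero_mem _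
    | add a b _ _ ha hb => exact Submodule.add_mem _ ha hb
    | smul r a _ ha =>
      have : ((r • a : A) : K) = (⟨(r : K), le_lo _ _ r.2⟩ : lo W.toSubring A.toSubring) •
          (a : K) := rfl
      rw [SetLike.mem_coe, this]
      exact Submodule.smul_mem _ _ ha
  · rw [Submodule.span_le]
    rintro _ ⟨x, hx, rfl⟩
    have h2 : (qact hF ⟨x, hx⟩ - ⟨x, hx⟩ : lo W.toSubring A.toSubring) ∈ fixR (qact hF) ^ 1 := by
      rw [pow_one]
      exact fixR_mem _
    obtain ⟨s, hs0, hsW, a, ha, hsa⟩ := clear_den hst hAW hF 1 _ h2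
    rw [pow_one] at ha
    have hsa' : (s : K) * (ρ g x - x) = a := hsa
    have hsQ : (s : K)⁻¹ ∈ lo W.toSubring A.toSubring :=
      ic_lo hAW _ (le_lo _ _ s.2) hs0 hsW
    have e : ρ g x - x = (⟨_, hsQ⟩ : lo W.toSubring A.toSubring) • (a : K) := by
      rw [Subring.smul_def, smul_eq_mul, ← hsa', ← mul_assoc, inv_mul_cancel₀ hs0, one_mul]
    rw [SetLike.mem_coe, e]
    exact Submodule.smul_mem _ _ (Submodule.subset_span ⟨a, ha, rfl⟩)

variable {T : ℕ → Prop}

/-- The local rings of the charts of the blowing up are regular. -/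
theorem BW_pt (hfaith : ∀ g, (∀ a ∈ A, ρ g a = a) → g = 1)
    (hAW : A.toSubring ≤ W.toSubring)
    (hloc : PT2 T ρ W (lo W.toSubring A.toSubring)) (w : A) (hw : w ∈ AJ hst (ex T))
    (hw0 : (w : K) ≠ 0) (hBW : (BW (AJ hst (ex T)) w).toSubring ≤ W.toSubring) :
    IsRegularLocalRing (lo W.toSubring (BW (AJ hst (ex T)) w).toSubring) := by
  classical
  obtain ⟨hreg, h | ⟨p, τ, hp, hpT, hτ, hI, ⟨t, c, z, hG⟩, hF, hsc⟩ | ⟨σ, hI, hu, hT⟩⟩ := hloc
  · obtain ⟨v, hv, hvq⟩ := PI_not_le hst (ex T) (s := ∅) (ctr hAW) (ctr_prime hAW) fun g hg =>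
      Or.inl (h g (fx_of_le hst hAW hg))
    rw [Finset.sdiff_empty] at hv
    obtain ⟨hv0, hvW⟩ := unit_of_not_ctr hAW hvq
    exact blow_unit hAW hw0 hBW hv hv0 hvW hreg
  · have hτ1 : τ ≠ 1 := by
      rintro rfl
      rw [orderOf_one] at hτ
      exact hp.one_lt.ne hτ
    have hτp : τ ^ p = 1 := by rw [← hτ, pow_orderOf_eq_one]
    obtain ⟨v, hv, hvq⟩ := PI_not_le hst (ex T) (s := cy τ) (ctr hAW) (ctr_prime hAW)
      fun g hg => by
        by_cases hg1 : g = 1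
        · exact Or.inl hg1
        · exact Or.inr (mem_cy.2 ⟨hI g (fx_of_le hst hAW hg), hg1⟩)
    obtain ⟨hv0, hvW⟩ := unit_of_not_ctr hAW hvq
    have hAI := AJ_split hst (ex T) (cy τ) (cy_sub τ)
    rw [PI_const hst (ex T) (s := cy τ) (I := fixI hst τ) fun g hg =>
      fixI_eq hst hp hτp hτ1 (mem_cy.1 hg).1 (mem_cy.1 hg).2] at hAI
    rw [hAI] at hw hBW ⊢
    refine blow_centre hst hAW hF hG ?_ hv hv0 hvW hw hw0 hBW
    calc 1 ≤ ex T τ := ex_pos T τ
      _ ≤ ∑ g ∈ cy τ, ex T g := Finset.single_le_sum (f := ex T) (fun _ _ => Nat.zero_le _)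
        (mem_cy.2 ⟨Subgroup.mem_zpowers τ, hτ1⟩)
  · obtain ⟨v, hv, hvq⟩ := PI_not_le hst (ex T) (s := cy σ) (ctr hAW) (ctr_prime hAW)
      fun g hg => by
        by_cases hg1 : g = 1
        · exact Or.inl hg1
        · exact Or.inr (mem_cy.2 ⟨(hI g).1 (fx_of_le hst hAW hg), hg1⟩)
    obtain ⟨hv0, hvW⟩ := unit_of_not_ctr hAW hvq
    have hAI := AJ_split hst (ex T) (cy σ) (cy_sub σ)
    rw [hAI] at hw hBW ⊢
    have hne : ∀ g ∈ cy σ, ∃ x ∈ Gs hst g, x ≠ 0 := by
      intro g hg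
      obtain ⟨l, hl, hl0⟩ := Submodule.exists_mem_ne_zero_of_ne_bot
        (fixI_ne_bot hst hfaith (mem_cy.1 hg).2)
      exact ⟨_, ⟨l, hl, rfl⟩, fun h => hl0 (Subtype.ext h)⟩
    refine blow_multi hst hAW (fun g _ => ex_pos T g) hne ?_ hreg
      (fun g hg h hh => fixI_sup hst hg hh) hv hv0 hvW hw hw0 hBW
    intro g hg
    have hFg := (hI g).2 (mem_cy.1 hg).1
    have hgo : orderOf g ∣ orderOf σ := orderOf_dvd_of_mem_zpowers (mem_cy.1 hg).1
    obtain ⟨c, z, hG⟩ := gd_of_tame1 (σ := ρ g) (p := orderOf g) (by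
      intro x
      have h1 : ∀ n : ℕ, (ρ g)^[n] x = ρ (g ^ n) x := by
        intro n
        induction n with
        | zero => rw [pow_zero, map_one]; rfl
        | succ n ih => rw [Function.iterate_succ_apply', ih, pow_succ', map_mul]; rfl
      rw [h1, pow_orderOf_eq_one, map_one]
      rfl) (lo_le hAW) (ic_lo hAW) hreg hFg (by
        obtain ⟨k, hk⟩ := hgo
        rw [hk, Nat.cast_mul] at hu
        exact isUnit_of_mul_isUnit_left hu)
    exact rg_of_gd hst hAW hFg hG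

end fin

end Pool.Agent.N864.GR
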