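import Pool.Agent.N864.GR.Fix3
import Pool.Agent.N864.GQ.Main

/-!
# Gluing of the blowings up of the charts
-/

set_option autoImplicit false
set_option linter.unusedSectionVars false
set_option linter.unusedVariables false

namespace Pool.Agent.N864.GR

open Pool.Agent.Y223.G Pool.Agent.TH188.QS Pool.Agent.W418.LU2 Pool.Agent.TH188.ARC
  Pool.Agent.Y223.INV Pool.Agent.N864.GQ
open Pool.Agent.Y25.G (MN_mul MN_one MN_zero MN_z MN_succ MN_pow_z FS_pow FS_mul FS_one)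

variable {O K G : Type} [CommRing O] [Field K] [Algebra O K] [Group G]
  {ρ : G →* (K ≃ₐ[O] K)} {A B : Subalgebra O K}

section

variable {u : K} (hu : u ∈ A)

include hu in
lemma Gl_sup {I I' : Ideal B} {J J' : Ideal A} (h : Gl u I J) (h' : Gl u I' J') :
    Gl u (I ⊔ I') (J ⊔ J') := by
  intro b hb
  obtain ⟨x, hx, y, hy, rfl⟩ := Submodule.mem_sup.1 hb
  rw [AddMemClass.coe_add]
  refine Gl_add hu ?_ ?_
  · obtain ⟨n, a, ha, hn⟩ := h x hx
    exact ⟨n, a, Ideal.mem_sup_left ha, hn⟩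
  · obtain ⟨n, a, ha, hn⟩ := h' y hy
    exact ⟨n, a, Ideal.mem_sup_right ha, hn⟩

lemma Gl_span (hAB : ∀ b ∈ B, ∃ n : ℕ, u ^ n * b ∈ A) {c : B} {c' : A} (hc : (c : K) = c') :
    Gl u (Ideal.span {c}) (Ideal.span {c'}) := by
  intro b hb
  obtain ⟨r, rfl⟩ := Ideal.mem_span_singleton'.1 hb
  obtain ⟨n, hn⟩ := hAB r r.2
  refine ⟨n, ⟨_, hn⟩ * c', Ideal.mul_mem_left _ _ (Ideal.mem_span_singleton_self _), ?_⟩
  change u ^ n * (r : K) * (c' : K) = u ^ n * ((r : K) * (c : K))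
  rw [hc]
  ring

variable (hA : ∀ g, ∀ a ∈ A, ρ g a ∈ A) (hB : ∀ g, ∀ b ∈ B, ρ g b ∈ B)
  (hinv : ∀ g, ρ g u = u)

section fin

variable [Fintype G]

include hu hinv in
lemma Gl_JJ (hAB : ∀ b ∈ B, ∃ n : ℕ, u ^ n * b ∈ A) (M : ℕ) (g : G) :
    Gl u (JJ hB M g) (JJ hA M g) := by
  unfold JJ
  refine Gl_mul hu (Gl_sup hu (Gl_pow hu hAB (Gl_fixI hu hA hB hinv hAB g) _) ?_)
    (Gl_sup hu (Gl_pow hu hAB (Gl_fixI hu hA hB hinv hAB g) _) ?_)
  · refine Gl_span hAB ?_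
    push_cast
    rfl
  · refine Gl_span hAB ?_
    push_cast
    rfl

include hu hinv in
lemma Gl_AK (hAB : ∀ b ∈ B, ∃ n : ℕ, u ^ n * b ∈ A) (M : ℕ) : Gl u (AK hB M) (AK hA M) := by
  unfold AK
  exact Gl_prod hu hAB _ _ _ fun g _ => Gl_JJ hu hA hB hinv hAB M g

include hu hinv in
/-- The Rees algebras glue. -/
theorem glue_RI3 (hAB : ∀ b ∈ B, ∃ n : ℕ, u ^ n * b ∈ A) (M : ℕ) :
    ∀ f ∈ RI (AK hB M), ∃ n : ℕ, hm 0 u ^ n * f ∈ RI (AK hA M) := by
  classical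
  have hU : hm 0 u ∈ RI (AK hA M) := b_RI (𝔞 := AK hA M) ⟨u, hu⟩
  have hpow : ∀ (n : ℕ) (d : ℤ) (x : K), hm 0 u ^ n * hm d x = hm d (u ^ n * x) := by
    intro n d x
    induction n with
    | zero => rw [pow_zero, pow_zero, one_mul, one_mul]
    | succ n ih =>
      rw [pow_succ', mul_assoc, ih, hm_mul, zero_add]
      congr 1
      ring
  refine RI_induction ?_ ?_ ?_ ?_ ?_
  · intro b
    obtain ⟨n, hn⟩ := hAB b b.2
    refine ⟨n, ?_⟩
    rw [hpow]
    exact b_RI (𝔞 := AK hA M) ⟨_, hn⟩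
  · exact ⟨0, by rw [pow_zero, one_mul]; exact s_RI⟩
  · intro w hw
    obtain ⟨n, a, ha, hn⟩ := Gl_AK hu hA hB hinv hAB M w hw
    refine ⟨n, ?_⟩
    rw [hpow, ← hn]
    exact hm_one_RI ha
  · rintro f _ g _ ⟨n, hn⟩ ⟨n', hn'⟩
    refine ⟨n + n', ?_⟩
    have e : hm 0 u ^ (n + n') * (f + g) =
        hm 0 u ^ n' * (hm 0 u ^ n * f) + hm 0 u ^ n * (hm 0 u ^ n' * g) := by ring
    rw [e]
    exact Subalgebra.add_mem _ (Subalgebra.mul_mem _ (Subalgebra.pow_mem _ hU _) hn)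
      (Subalgebra.mul_mem _ (Subalgebra.pow_mem _ hU _) hn')
  · rintro f _ g _ ⟨n, hn⟩ ⟨n', hn'⟩
    refine ⟨n + n', ?_⟩
    have e : hm 0 u ^ (n + n') * (f * g) = (hm 0 u ^ n * f) * (hm 0 u ^ n' * g) := by ring
    rw [e]
    exact Subalgebra.mul_mem _ hn hn'

end fin

end

/-- The condition at the points of the charts. -/
def PTC3 (O : Type) {K G : Type} [CommRing O] [Field K] [Algebra O K] [Group G]
    (ρ : G →* (K ≃ₐ[O] K)) (W : ValuationSubring K) (Q : Subring K) : Prop :=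
  PT2 (TW W) ρ W Q ∧ ((∀ s : O, s ≠ 0 → ¬ NU W.toSubring (algebraMap O K s)) →
    ∀ g, Fx (ρ g) W Q → g = 1)

section

variable {m : ℕ} {z : Fin (m + 1) → K} {d : ℕ} {Φ : K}

lemma ve_of3 [Fintype G] [IsDomain O] (hinj : Function.Injective (algebraMap O K))
    (hst : ∀ g, ∀ a ∈ AF O z d Φ, ρ g a ∈ AF O z d Φ) (hz : ∀ j, z j ≠ 0) (hΦ0 : Φ ≠ 0)
    (hΦ : Φ ∈ FS O z d) (hd : 1 ≤ d)
    (hpt : ∀ (W : ValuationSubring K) j, CC O z j ≤ W.toSubring →
      PTC3 O ρ W (lo W.toSubring (CC O z j))) (N : ℕ) :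
    ∃ s : O, s ≠ 0 ∧ ∀ g ∈ NT G, algebraMap O (AF O z d Φ) s ∈ fixI hst g ^ N := by
  classical
  have hmain : ∃ s : O, s ≠ 0 ∧ algebraMap O (AF O z d Φ) s ∈ AJ hst (fun _ => N) := by
    by_contra hcon
    push Not at hcon
    let S : Submonoid (AF O z d Φ) := (nonZeroDivisors O).map (algebraMap O (AF O z d Φ))
    have hdis : Disjoint (AJ hst (fun _ => N) : Set (AF O z d Φ)) (S : Set (AF O z d Φ)) := by
      rw [Set.disjoint_left]
      rintro _ h1 ⟨s, hs, rfl⟩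
      exact hcon s (nonZeroDivisors.ne_zero hs) h1
    obtain ⟨q, hq, hle, hqd⟩ := Ideal.exists_le_prime_disjoint _ S hdis
    obtain ⟨W, hAW, hW⟩ := Pool.Agent.Y223.CC.exists_val (AF O z d Φ).toSubring q
    have hctr : ctr hAW = q := by
      ext a
      exact (hW a).symm
    obtain ⟨j, hCW, hlo⟩ := lo_AF hz hΦ0 hΦ hd hAW
    obtain ⟨-, h2⟩ := hpt W j hCW
    have h3 : ∀ s : O, s ≠ 0 → ¬ NU W.toSubring (algebraMap O K s) := by
      intro s hs h
      have h4 : algebraMap O (AF O z d Φ) s ∈ q := by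
        rw [← hctr]
        exact (nu_iff (hAW (Subalgebra.algebraMap_mem _ s))).1 h
      rw [Set.disjoint_left] at hqd
      exact hqd h4 ⟨s, mem_nonZeroDivisors_of_ne_zero hs, rfl⟩
    obtain ⟨v, hv, hvq⟩ := PI_not_le hst (fun _ => N) (s := ∅) q hq fun g hg => by
      refine Or.inl (h2 h3 g ?_)
      change Fx (ρ g) W
        (lo W.toSubring (Algebra.adjoin O (Set.range fun i => z i / z j)).toSubring)
      rw [← hlo]
      exact fx_of_le hst hAW (hctr ▸ hg)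
    rw [Finset.sdiff_empty] at hv
    exact hvq (hle hv)
  obtain ⟨s, hs, hs'⟩ := hmain
  refine ⟨s, hs, fun g hg => ?_⟩
  unfold AJ PI at hs'
  rw [← Finset.mul_prod_erase _ _ hg] at hs'
  exact Ideal.mul_le_left hs'

end

/-- Powers in a finite ring are idempotent. -/
lemma exists_idem (R : Type) [CommRing R] [Finite R] :
    ∃ M : ℕ, 1 ≤ M ∧ ∀ x : R, x ^ M * (1 - x ^ M) = 0 := by
  classical
  have h1 : ∀ x : R, ∃ M : ℕ, 1 ≤ M ∧ IsIdempotentElem (x ^ M) := by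
    intro x
    obtain ⟨i, j, hij, h⟩ : ∃ i j : ℕ, i < j ∧ x ^ i = x ^ j := by
      obtain ⟨i, j, hne, h⟩ := Finite.exists_ne_map_eq_of_infinite (fun n : ℕ => x ^ n)
      rcases lt_or_gt_of_ne hne with h2 | h2
      · exact ⟨i, j, h2, h⟩
      · exact ⟨j, i, h2, h.symm⟩
    obtain ⟨p, rfl⟩ : ∃ p, j = i + p := ⟨j - i, by omega⟩
    have hp : 1 ≤ p := by omega
    have h2 : ∀ k, x ^ (i + k + p) = x ^ (i + k) := by
      intro k
      have e : i + k + p = (i + p) + k := by ring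
      rw [e, pow_add, ← h, ← pow_add]
    have h3 : ∀ c k, x ^ (i + k + c * p) = x ^ (i + k) := by
      intro c
      induction c with
      | zero =>
        intro k
        rw [zero_mul, add_zero]
      | succ c ih =>
        intro k
        have e : i + k + (c + 1) * p = i + (k + c * p) + p := by ring
        have e' : i + (k + c * p) = i + k + c * p := by ring
        rw [e, h2, e', ih]
    refine ⟨(i + 1) * p, Nat.one_le_iff_ne_zero.2 (Nat.mul_ne_zero (by omega) (by omega)), ?_⟩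
    obtain ⟨k, hk⟩ : ∃ k, (i + 1) * p = i + k := by
      refine ⟨(i + 1) * p - i, ?_⟩
      have : i ≤ (i + 1) * p := by
        calc i ≤ i + 1 := by omega
          _ = (i + 1) * 1 := by ring
          _ ≤ (i + 1) * p := Nat.mul_le_mul_left _ hp
      omega
    change x ^ ((i + 1) * p) * x ^ ((i + 1) * p) = x ^ ((i + 1) * p)
    rw [← pow_add]
    have h4 := h3 (i + 1) k
    rw [← hk] at h4
    exact h4
  choose f hf using h1
  let _ : Fintype R := Fintype.ofFinite R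
  refine ⟨∏ x : R, f x, ?_, fun x => ?_⟩
  · rw [Nat.one_le_iff_ne_zero]
    exact Finset.prod_ne_zero_iff.2 fun x _ => by have := (hf x).1; omega
  · have h2 : IsIdempotentElem (x ^ ∏ x : R, f x) := by
      rw [← Finset.mul_prod_erase Finset.univ f (Finset.mem_univ x), pow_mul]
      exact (hf x).2.pow _
    have h3 : x ^ (∏ x : R, f x) * x ^ (∏ x : R, f x) = x ^ ∏ x : R, f x := h2
    rw [mul_sub, mul_one, h3, sub_self]

end Pool.Agent.N864.GR
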