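import Mathlib

/-!
# Cyclic groups, and the exponents
-/

set_option autoImplicit false
set_option linter.unusedSectionVars false
set_option linter.unusedVariables false

namespace Pool.Agent.N864.GR

variable {G : Type} [Group G]

lemma exists_nat_pow [Finite G] (x : G) (k : ℤ) : ∃ n : ℕ, x ^ k = x ^ n := by
  have h1 : x ^ k ∈ Subgroup.zpowers x := ⟨k, rfl⟩
  rw [← mem_powers_iff_mem_zpowers] at h1
  obtain ⟨n, hn⟩ := h1
  exact ⟨n, hn.symm⟩

/-- Two elements of a cyclic group generate a cyclic group. -/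
lemma cyc_sup [Finite G] {σ g h : G} (hg : g ∈ Subgroup.zpowers σ) (hh : h ∈ Subgroup.zpowers σ)
    (hg1 : g ≠ 1) : ∃ l ∈ Subgroup.zpowers σ, l ≠ 1 ∧ (∃ n : ℕ, g = l ^ n) ∧ (∃ n : ℕ, h = l ^ n) ∧
      ∃ a b : ℕ, l = g ^ a * h ^ b := by
  obtain ⟨i, rfl⟩ := hg
  obtain ⟨j, rfl⟩ := hh
  change σ ^ i ≠ 1 at hg1
  set d := Int.gcd i j with hd
  have h1 : (d : ℤ) ∣ i := Int.gcd_dvd_left _ _
  have h2 : (d : ℤ) ∣ j := Int.gcd_dvd_right _ _
  obtain ⟨i', hi'⟩ := h1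
  obtain ⟨j', hj'⟩ := h2
  have hgi : σ ^ i = (σ ^ (d : ℤ)) ^ i' := by rw [← zpow_mul, ← hi']
  have hgj : σ ^ j = (σ ^ (d : ℤ)) ^ j' := by rw [← zpow_mul, ← hj']
  refine ⟨σ ^ (d : ℤ), ⟨d, rfl⟩, ?_, ?_, ?_, ?_⟩
  · intro h
    apply hg1
    rw [hgi, h, one_zpow]
  · obtain ⟨n, hn⟩ := exists_nat_pow (σ ^ (d : ℤ)) i'
    exact ⟨n, by change σ ^ i = _; rw [hgi, hn]⟩
  · obtain ⟨n, hn⟩ := exists_nat_pow (σ ^ (d : ℤ)) j'
    exact ⟨n, by change σ ^ j = _; rw [hgj, hn]⟩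
  · obtain ⟨a, ha⟩ := exists_nat_pow (σ ^ i) (Int.gcdA i j)
    obtain ⟨b, hb⟩ := exists_nat_pow (σ ^ j) (Int.gcdB i j)
    refine ⟨a, b, ?_⟩
    change _ = (σ ^ i) ^ a * (σ ^ j) ^ b
    rw [← ha, ← hb, ← zpow_mul, ← zpow_mul, ← zpow_add, hd, Int.gcd_eq_gcd_ab]

/-- The subgroup of prime order of a cyclic group. -/
lemma cyc_unique [Finite G] {σ g τ : G} {l : ℕ} (hl : l.Prime) (hg : g ∈ Subgroup.zpowers σ)
    (hτ : τ ∈ Subgroup.zpowers σ) (hgo : orderOf g = l) (hτo : orderOf τ = l) :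
    g ∈ Subgroup.zpowers τ := by
  have hσ : 0 < orderOf σ := orderOf_pos σ
  have hdiv : l ∣ orderOf σ := hτo ▸ orderOf_dvd_of_mem_zpowers hτ
  obtain ⟨m, hm⟩ := hdiv
  have key : ∀ x ∈ Subgroup.zpowers σ, orderOf x = l → x ∈ Subgroup.zpowers (σ ^ m) := by
    intro x hx hxo
    rw [← mem_powers_iff_mem_zpowers] at hx
    obtain ⟨i, rfl⟩ := hx
    change orderOf (σ ^ i) = l at hxo
    have h1 : (σ ^ i) ^ l = 1 := by rw [← hxo, pow_orderOf_eq_one]
    rw [← pow_mul] at h1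
    have h2 : orderOf σ ∣ i * l := orderOf_dvd_of_pow_eq_one h1
    rw [hm, mul_comm i l] at h2
    have h3 : m ∣ i := (Nat.mul_dvd_mul_iff_left hl.pos).1 h2
    obtain ⟨i', rfl⟩ := h3
    change σ ^ (m * i') ∈ _
    rw [pow_mul]
    exact Subgroup.pow_mem _ (Subgroup.mem_zpowers _) _
  have hζ : orderOf (σ ^ m) = l := by
    have h1 : (σ ^ m) ^ l = 1 := by rw [← pow_mul, mul_comm, ← hm, pow_orderOf_eq_one]
    have h2 : σ ^ m ≠ 1 := by
      intro h
      have h3 := key τ hτ hτo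
      rw [h, Subgroup.zpowers_one_eq_bot, Subgroup.mem_bot] at h3
      rw [h3, orderOf_one] at hτo
      exact hl.one_lt.ne hτo
    have hf : Fact l.Prime := ⟨hl⟩
    exact orderOf_eq_prime h1 h2
  have h1 : Subgroup.zpowers τ ≤ Subgroup.zpowers (σ ^ m) := by
    rw [Subgroup.zpowers_le]
    exact key τ hτ hτo
  have h2 : Subgroup.zpowers τ = Subgroup.zpowers (σ ^ m) := by
    apply Subgroup.eq_of_le_of_card_ge h1
    rw [Nat.card_zpowers, Nat.card_zpowers, hζ, hτo]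
  rw [h2]
  exact key g hg hgo

section ex

variable [Fintype G] (T : ℕ → Prop)

open scoped Classical in
/-- The exponents. -/
noncomputable def ex (g : G) : ℕ :=
  if (orderOf g).Prime ∧ T (orderOf g) then ordCompl[orderOf g] (Nat.card G) else Nat.card G

lemma ex_conj (g h : G) : ex T (h * g * h⁻¹) = ex T g := by
  have h1 : orderOf (h * g * h⁻¹) = orderOf g := MulEquiv.orderOf_eq (MulAut.conj h) g
  unfold ex
  rw [h1]

lemma ex_pos (g : G) : 1 ≤ ex T g := by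
  have h1 : 0 < Nat.card G := Nat.card_pos
  unfold ex
  split_ifs with h
  · exact Nat.ordCompl_pos _ h1.ne'
  · exact h1

lemma ex_wild {g : G} {p : ℕ} (hp : ¬ T p) (hg : orderOf g = p) : p ∣ ex T g := by
  unfold ex
  rw [if_neg (by rw [hg]; exact fun h => hp h.2), ← hg]
  exact orderOf_dvd_natCard g

lemma ex_dvd {g : G} {l : ℕ} (hl : l.Prime) (hlG : l ∣ Nat.card G) (hg : orderOf g ≠ l) :
    l ∣ ex T g := by
  unfold ex
  split_ifs with h
  · have h1 : ordProj[orderOf g] (Nat.card G) * ordCompl[orderOf g] (Nat.card G) = Nat.card G :=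
      Nat.ordProj_mul_ordCompl_eq_self _ _
    have h2 : l.Coprime (ordProj[orderOf g] (Nat.card G)) :=
      Nat.Coprime.pow_right _ ((Nat.coprime_primes hl h.1).2 fun h => hg h.symm)
    have h3 : l ∣ ordProj[orderOf g] (Nat.card G) * ordCompl[orderOf g] (Nat.card G) := by
      rw [h1]
      exact hlG
    exact h2.dvd_of_dvd_mul_left h3
  · exact hlG

open scoped Classical in
lemma ex_sum {τ : G} {l : ℕ} (hl : l.Prime) (hT : T l) (hτ : orderOf τ = l) :
    l.Coprime (∑ g ∈ Finset.univ.filter (fun g : G => g ∈ Subgroup.zpowers τ ∧ g ≠ 1), ex T g) := by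
  have hf : Fact l.Prime := ⟨hl⟩
  have h0 : 0 < Nat.card G := Nat.card_pos
  have h1 : ∀ g ∈ Finset.univ.filter (fun g : G => g ∈ Subgroup.zpowers τ ∧ g ≠ 1),
      ex T g = ordCompl[l] (Nat.card G) := by
    intro g hg
    rw [Finset.mem_filter] at hg
    obtain ⟨-, hgτ, hg1⟩ := hg
    have h2 : orderOf g = l := by
      have h3 : orderOf g ∣ l := hτ ▸ orderOf_dvd_of_mem_zpowers hgτ
      rcases (Nat.dvd_prime hl).1 h3 with h4 | h4
      · exact absurd (orderOf_eq_one_iff.1 h4) hg1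
      · exact h4
    unfold ex
    rw [if_pos ⟨by rw [h2]; exact hl, by rw [h2]; exact hT⟩, h2]
  have h2 : (Finset.univ.filter (fun g : G => g ∈ Subgroup.zpowers τ ∧ g ≠ 1)).card = l - 1 := by
    have h3 : (Finset.univ.filter (fun g : G => g ∈ Subgroup.zpowers τ ∧ g ≠ 1)) =
        (Finset.univ.filter (fun g : G => g ∈ Subgroup.zpowers τ)).erase 1 := by
      ext g
      simp only [Finset.mem_filter, Finset.mem_univ, true_and, Finset.mem_erase]
      exact and_comm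
    rw [h3, Finset.card_erase_of_mem (by simp)]
    congr 1
    have h4 : Nat.card (Subgroup.zpowers τ) = l := by rw [Nat.card_zpowers, hτ]
    rw [← h4, Nat.card_eq_fintype_card, Fintype.card_subtype]
  rw [Finset.sum_congr rfl h1, Finset.sum_const, h2, smul_eq_mul]
  refine Nat.Coprime.mul_right ?_ (Nat.coprime_ordCompl hl h0.ne')
  have h5 : l - 1 < l := Nat.sub_lt hl.pos one_pos
  have h6 : 0 < l - 1 := Nat.sub_pos_of_lt hl.one_lt
  exact Nat.coprime_of_lt_prime h6.ne' h5 hl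

end ex

end Pool.Agent.N864.GR
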