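import Pool.Agent.N864.GR.Wonder2

/-!
# The product of the ideals of the fixed points, with exponents
-/

set_option autoImplicit false
set_option linter.unusedSectionVars false
set_option linter.unusedVariables false

namespace Pool.Agent.N864.GR

open IsLocalRing Pool.Agent.Y223.G Pool.Agent.TH188.QS Pool.Agent.W418.LU2 Pool.Agent.TH188.ARC
  Pool.Agent.Y223.INV Pool.Agent.N864.GQ

variable {O K G : Type} [CommRing O] [Field K] [Algebra O K] [Group G]
  {ρ : G →* (K ≃ₐ[O] K)} {A : Subalgebra O K} (hst : ∀ g, ∀ a ∈ A, ρ g a ∈ A)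

section fin

variable [Fintype G] (e : G → ℕ)

/-- The product over a finite set. -/
noncomputable def PI (s : Finset G) : Ideal A := ∏ g ∈ s, fixI hst g ^ e g

open scoped Classical in
/-- The nontrivial elements. -/
noncomputable def NT (G : Type) [Group G] [Fintype G] : Finset G :=
  Finset.univ.filter (fun g : G => g ≠ 1)

lemma mem_NT {g : G} : g ∈ NT G ↔ g ≠ 1 := by
  classical
  unfold NT
  rw [Finset.mem_filter]
  exact ⟨fun h => h.2, fun h => ⟨Finset.mem_univ _, h⟩⟩

/-- The ideal which is blown up. -/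
noncomputable def AJ : Ideal A := PI hst e (NT G)

lemma PI_act (he : ∀ g h, e (h * g * h⁻¹) = e g) (h : G) :
    (AJ hst e).map (act hst h) ≤ AJ hst e := by
  classical
  have h1 : ∀ s : Finset G, (∏ g ∈ s, fixI hst g ^ e g).map (act hst h) =
      ∏ g ∈ s, ((fixI hst g).map (act hst h)) ^ e g := by
    intro s
    induction s using Finset.induction_on with
    | empty =>
      rw [Finset.prod_empty, Finset.prod_empty, Ideal.one_eq_top, Ideal.map_top]
    | insert a s ha ih =>
      rw [Finset.prod_insert ha, Finset.prod_insert ha, Ideal.map_mul, Ideal.map_pow, ih]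
  unfold AJ PI
  rw [h1]
  calc ∏ g ∈ NT G, ((fixI hst g).map (act hst h)) ^ e g
      ≤ ∏ g ∈ NT G, fixI hst (h * g * h⁻¹) ^ e g :=
        Finset.prod_le_prod' fun g _ => Ideal.pow_right_mono (fixI_conj hst g h) _
    _ = ∏ g ∈ NT G, fixI hst g ^ e g := by
        refine Finset.prod_bij' (fun g _ => h * g * h⁻¹) (fun g _ => h⁻¹ * g * h) ?_ ?_ ?_ ?_ ?_
        · intro g hg
          rw [mem_NT] at hg ⊢
          exact fun h2 => hg (by rwa [conj_eq_one_iff] at h2)
        · intro g hg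
          rw [mem_NT] at hg ⊢
          refine fun h2 => hg ?_
          have h3 : g = h * (h⁻¹ * g * h) * h⁻¹ := by group
          rw [h3, h2]
          group
        · intro g _
          group
        · intro g _
          group
        · intro g _
          rw [he]

lemma AJ_act (he : ∀ g h, e (h * g * h⁻¹) = e g) {x : A} (hx : x ∈ AJ hst e) (h : G) :
    act hst h x ∈ AJ hst e :=
  PI_act hst e he h (Ideal.mem_map_of_mem _ hx)

open scoped Classical in
lemma AJ_split (s : Finset G) (hs : s ⊆ NT G) :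
    AJ hst e = PI hst e s * PI hst e (NT G \ s) := by
  unfold AJ PI
  rw [mul_comm]
  exact (Finset.prod_sdiff hs).symm

open scoped Classical in
lemma PI_not_le {s : Finset G} (q : Ideal A) (hq : q.IsPrime)
    (h : ∀ g : G, fixI hst g ≤ q → g = 1 ∨ g ∈ s) :
    ∃ v ∈ PI hst e (NT G \ s), v ∉ q := by
  by_contra hcon
  push Not at hcon
  have h1 : PI hst e (NT G \ s) ≤ q := hcon
  unfold PI at h1
  rw [hq.prod_le] at h1
  obtain ⟨g, hg, hgq⟩ := h1
  rw [Finset.mem_sdiff, mem_NT] at hg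
  have h2 := hq.le_of_pow_le hgq
  rcases h g h2 with h3 | h3
  · exact hg.1 h3
  · exact hg.2 h3

lemma PI_const {s : Finset G} {I : Ideal A} (h : ∀ g ∈ s, fixI hst g = I) :
    PI hst e s = I ^ ∑ g ∈ s, e g := by
  unfold PI
  rw [← Finset.prod_pow_eq_pow_sum]
  exact Finset.prod_congr rfl fun g hg => by rw [h g hg]

end fin

section divs

variable {W : ValuationSubring K}

lemma div_mulI {T : Subring K} {I I' : Ideal A} {y y' : K} (h : ∀ l ∈ I, (l : K) / y ∈ T)
    (h' : ∀ l ∈ I', (l : K) / y' ∈ T) : ∀ l ∈ I * I', (l : K) / (y * y') ∈ T := by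
  intro l hl
  induction hl using Submodule.mul_induction_on' with
  | mem_mul_mem a ha b hb =>
    have e : ((a * b : A) : K) / (y * y') = ((a : K) / y) * ((b : K) / y') := by
      rw [← mul_div_mul_comm]
      rfl
    rw [e]
    exact T.mul_mem (h a ha) (h' b hb)
  | add a _ b _ ha hb =>
    have e : ((a + b : A) : K) / (y * y') = (a : K) / (y * y') + (b : K) / (y * y') := by
      rw [← add_div]
      rfl
    rw [e]
    exact T.add_mem ha hb

lemma div_powI {T : Subring K} (hAT : ∀ a ∈ A, a ∈ T) {I : Ideal A} {y : K}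
    (h : ∀ l ∈ I, (l : K) / y ∈ T) (n : ℕ) : ∀ l ∈ I ^ n, (l : K) / y ^ n ∈ T := by
  induction n with
  | zero =>
    intro l _
    rw [pow_zero, div_one]
    exact hAT l l.2
  | succ n ih =>
    rw [pow_succ, pow_succ]
    exact div_mulI ih h

lemma div_prodI {T : Subring K} (hAT : ∀ a ∈ A, a ∈ T) {e : G → ℕ} {y : G → A}
    (s : Finset G) (h : ∀ g ∈ s, ∀ l ∈ fixI hst g, (l : K) / y g ∈ T) :
    ∀ l ∈ ∏ g ∈ s, fixI hst g ^ e g, (l : K) / ((∏ g ∈ s, y g ^ e g : A) : K) ∈ T := by
  classical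
  induction s using Finset.induction_on with
  | empty =>
    intro l _
    rw [Finset.prod_empty, OneMemClass.coe_one, div_one]
    exact hAT l l.2
  | insert a s ha ih =>
    rw [Finset.prod_insert ha, Finset.prod_insert ha]
    have e1 : ((y a ^ e a * ∏ g ∈ s, y g ^ e g : A) : K) =
        (y a : K) ^ e a * ((∏ g ∈ s, y g ^ e g : A) : K) := rfl
    rw [e1]
    exact div_mulI (div_powI hAT (h a (Finset.mem_insert_self a s)) _)
      (ih fun g hg => h g (Finset.mem_insert_of_mem hg))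

end divs

section multi

variable {W : ValuationSubring K} [Fintype G] {e : G → ℕ}

/-- The generators of the ideals. -/
def Gs (g : G) : Set K := {x | ∃ l ∈ fixI hst g, x = (l : K)}

/-- The local rings of the blowing up of a product of ideals. -/
theorem blow_multi (hAW : A.toSubring ≤ W.toSubring) {s : Finset G} (he : ∀ g ∈ s, 1 ≤ e g)
    (hne : ∀ g ∈ s, ∃ x ∈ Gs hst g, x ≠ 0)
    (hRg : ∀ g ∈ s, Rg W (lo W.toSubring A.toSubring) (Gs hst g))
    (hreg : IsRegularLocalRing (lo W.toSubring A.toSubring))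
    (hcl : ∀ g ∈ s, ∀ h ∈ s, ∃ l ∈ s, fixI hst g ⊔ fixI hst h = fixI hst l)
    {V : Ideal A} {v₀ : A} (hv₀ : v₀ ∈ V) (hv0 : (v₀ : K) ≠ 0) (hvW : (v₀ : K)⁻¹ ∈ W) {w : A}
    (hw : w ∈ PI hst e s * V) (hw0 : (w : K) ≠ 0)
    (hBW : (BW (PI hst e s * V) w).toSubring ≤ W.toSubring) :
    IsRegularLocalRing (lo W.toSubring (BW (PI hst e s * V) w).toSubring) := by
  classical
  set Q := lo W.toSubring A.toSubring with hQ
  set 𝔞 := PI hst e s * V with h𝔞
  set S := lo W.toSubring (BW 𝔞 w).toSubring with hS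
  have hQW : Q ≤ W.toSubring := lo_le hAW
  have hSIC : IC W.toSubring S := ic_lo hBW
  have hQS : Q ≤ S := lo_mono fun a ha => BW_A w ha
  have hSW : S ≤ W.toSubring := lo_le hBW
  have hAQ : ∀ a ∈ A, a ∈ Q := fun a ha => le_lo _ _ ha
  obtain ⟨E, hEreg, hQE, hEW, hEIC, hEdiv, hEmin⟩ := exists_wonder (W := W) s.card Q s
    (Gs hst) le_rfl hreg hQW (ic_lo hAW) hRg hne (fun g hg h hh _ _ => by
      obtain ⟨l, hl, hl'⟩ := hcl g hg h hh
      refine ⟨l, hl, le_antisymm ?_ ?_⟩
      · rw [Submodule.span_le]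
        rintro x (⟨y, hy, rfl⟩ | ⟨y, hy, rfl⟩)
        · exact Submodule.subset_span ⟨y, by rw [← hl']; exact Ideal.mem_sup_left hy, rfl⟩
        · exact Submodule.subset_span ⟨y, by rw [← hl']; exact Ideal.mem_sup_right hy, rfl⟩
      · rw [Submodule.span_le]
        rintro _ ⟨y, hy, rfl⟩
        rw [← hl', Submodule.mem_sup] at hy
        obtain ⟨a, ha, b, hb, rfl⟩ := hy
        rw [SetLike.mem_coe, AddMemClass.coe_add]
        exact Submodule.add_mem _ (Submodule.subset_span (Or.inl ⟨a, ha, rfl⟩))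
          (Submodule.subset_span (Or.inr ⟨b, hb, rfl⟩)))
  have hy : ∀ g : G, ∃ y : A, g ∈ s → y ∈ fixI hst g ∧ (y : K) ≠ 0 ∧
      ∀ l ∈ fixI hst g, (l : K) / y ∈ W := by
    intro g
    by_cases hg : g ∈ s
    · obtain ⟨_, ⟨y, hy, rfl⟩, hy0, hyW⟩ := exists_mv (hRg g hg) (hne g hg)
      exact ⟨y, fun _ => ⟨hy, hy0, fun l hl => hyW _ ⟨l, hl, rfl⟩⟩⟩
    · exact ⟨0, fun h => absurd h hg⟩
  choose y hy using hy
  set Y : A := ∏ g ∈ s, y g ^ e g with hYdef
  have hY0 : (Y : K) ≠ 0 := by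
    have h1 : (Y : K) = ∏ g ∈ s, (y g : K) ^ e g := by
      rw [hYdef]
      exact (map_prod A.val (fun g => y g ^ e g) s).trans
        (Finset.prod_congr rfl fun g _ => map_pow A.val (y g) (e g))
    rw [h1]
    exact Finset.prod_ne_zero_iff.2 fun g hg => pow_ne_zero _ (hy g hg).2.1
  have hYPI : Y ∈ PI hst e s := by
    unfold PI
    exact Ideal.prod_mem_prod fun g hg => Ideal.pow_mem_pow (hy g hg).1 _
  have hydiv : ∀ g ∈ s, ∀ l ∈ fixI hst g, (l : K) / y g ∈ E := by
    intro g hg l hl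
    exact hEdiv g hg (y g) ⟨y g, (hy g hg).1, rfl⟩ (hy g hg).2.1 (by
      rintro _ ⟨l, hl, rfl⟩
      exact (hy g hg).2.2 l hl) l ⟨l, hl, rfl⟩
  have hE1 : ∀ l ∈ PI hst e s, (l : K) / Y ∈ E := by
    unfold PI
    exact div_prodI hst (fun a ha => hQE (hAQ a ha)) s hydiv
  have hE2 : ∀ l ∈ 𝔞, (l : K) / Y ∈ E := fun l hl => hE1 l (Ideal.mul_le_left hl)
  have hv₀S : (v₀ : K)⁻¹ ∈ S := hSIC _ (hQS (hAQ _ v₀.2)) hv0 hvW
  have hYS : (Y : K) / w ∈ S := by
    have h1 : ((Y * v₀ : A) : K) / w ∈ S := le_lo _ _ (BW_div w (Ideal.mul_mem_mul hYPI hv₀))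
    have e : (Y : K) / w = ((Y * v₀ : A) : K) / w * (v₀ : K)⁻¹ := by
      change _ = (Y : K) * (v₀ : K) / w * (v₀ : K)⁻¹
      field_simp
    rw [e]
    exact S.mul_mem h1 hv₀S
  have hwE : (w : K) / Y ∈ E := hE2 w hw
  have hYE : (Y : K) / w ∈ E := by
    rw [← inv_div]
    refine hEIC _ hwE (div_ne_zero hw0 hY0) ?_
    rw [inv_div]
    exact hSW hYS
  have hwS : (w : K) / Y ∈ S := by
    rw [← inv_div]
    refine hSIC _ hYS (div_ne_zero hY0 hw0) ?_
    rw [inv_div]
    exact hEW hwE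
  have hSE : S ≤ E := by
    have h1 : (BW 𝔞 w).toSubring ≤ E := by
      refine BW_le (fun a ha => hQE (hAQ a ha)) fun a ha => ?_
      have e : (a : K) / w = ((a : K) / Y) * ((Y : K) / w) := by field_simp
      rw [e]
      exact E.mul_mem (hE2 a ha) hYE
    have h2 := lo_mono (A := W.toSubring) h1
    rwa [hEIC.lo_eq] at h2
  have hES : E ≤ S := by
    refine hEmin S hQS hSIC ?_
    rintro g hg _ ⟨y', hy', rfl⟩ hy'0 hy'W _ ⟨l, hl, rfl⟩
    obtain ⟨hyg, hyg0, hygW⟩ := hy g hg
    have key : ∀ l ∈ fixI hst g, (l : K) / y g ∈ S := by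
      intro l hl
      set b : A := l * y g ^ (e g - 1) * ∏ h ∈ s.erase g, y h ^ e h with hb
      have hbP : b ∈ PI hst e s := by
        unfold PI
        rw [← Finset.mul_prod_erase s _ hg]
        refine Ideal.mul_mem_mul ?_ (Ideal.prod_mem_prod fun h hh =>
          Ideal.pow_mem_pow (hy h (Finset.mem_of_mem_erase hh)).1 _)
        have e1 : fixI hst g ^ e g = fixI hst g * fixI hst g ^ (e g - 1) := by
          rw [← pow_succ', Nat.sub_add_cancel (he g hg)]
        rw [e1]
        exact Ideal.mul_mem_mul hl (Ideal.pow_mem_pow hyg _)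
      have h1 : ((b * v₀ : A) : K) / w ∈ S := le_lo _ _ (BW_div w (Ideal.mul_mem_mul hbP hv₀))
      have hYb : (b : K) * y g = l * Y := by
        have h2 : b * y g = l * Y := by
          rw [hb, hYdef, ← Finset.mul_prod_erase s (fun h => y h ^ e h) hg]
          have e2 : y g ^ e g = y g ^ (e g - 1) * y g := by
            rw [← pow_succ, Nat.sub_add_cancel (he g hg)]
          change _ = l * (y g ^ e g * _)
          rw [e2]
          ring
        exact congrArg Subtype.val h2
      have e3 : (l : K) / y g = ((b * v₀ : A) : K) / w * (v₀ : K)⁻¹ * ((w : K) / Y) := by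
        change _ = (b : K) * (v₀ : K) / w * (v₀ : K)⁻¹ * ((w : K) / Y)
        field_simp
        linear_combination (-1 : K) * hYb
      rw [e3]
      exact S.mul_mem (S.mul_mem h1 hv₀S) hwS
    have h4 : (y g : K) / y' ∈ S := by
      rw [← inv_div]
      refine hSIC _ (key y' hy') (div_ne_zero hy'0 hyg0) ?_
      rw [inv_div]
      exact hy'W _ ⟨y g, hyg, rfl⟩
    have e4 : (l : K) / y' = ((l : K) / y g) * ((y g : K) / y') := by field_simp
    rw [e4]
    exact S.mul_mem (key l hl) h4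
  rw [le_antisymm hSE hES]
  exact hEreg

end multi

end Pool.Agent.N864.GR
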