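import Pool.Agent.N864.GR.Fix2

/-!
# Exponents which depend on the residue characteristic
-/

set_option autoImplicit false
set_option linter.unusedSectionVars false
set_option linter.unusedVariables false

namespace Pool.Agent.N864.GR

open IsLocalRing Pool.Agent.TH188.QS Pool.Agent.TH188.ARC Pool.Agent.W418.LU2
  Pool.Agent.Y223.G Pool.Agent.Y223.INV Pool.Agent.N864.GQ

variable {O K G : Type} [CommRing O] [Field K] [Algebra O K] [Group G]
  {ρ : G →* (K ≃ₐ[O] K)} {A : Subalgebra O K}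

/-- The ideals `𝔞` and `𝔟` are equal at the centre of `W`. -/
def Lq (W : ValuationSubring K) (𝔞 𝔟 : Ideal A) : Prop :=
  ∃ u : A, (u : K) ≠ 0 ∧ (u : K)⁻¹ ∈ W ∧ (∀ x ∈ 𝔞, u * x ∈ 𝔟) ∧ ∀ x ∈ 𝔟, u * x ∈ 𝔞

section lq

variable {W : ValuationSubring K}

lemma Lq_mul {𝔞 𝔟 𝔞' 𝔟' : Ideal A} (h : Lq W 𝔞 𝔟) (h' : Lq W 𝔞' 𝔟') :
    Lq W (𝔞 * 𝔞') (𝔟 * 𝔟') := by
  obtain ⟨u, hu0, huW, h1, h2⟩ := h
  obtain ⟨u', hu0', huW', h1', h2'⟩ := h'
  have key : ∀ {I J I' J' : Ideal A}, (∀ x ∈ I, u * x ∈ J) → (∀ x ∈ I', u' * x ∈ J') →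
      ∀ x ∈ I * I', u * u' * x ∈ J * J' := by
    intro I J I' J' hI hI' x hx
    induction hx using Submodule.mul_induction_on' with
    | mem_mul_mem a ha b hb =>
      have e : u * u' * (a * b) = (u * a) * (u' * b) := by ring
      rw [e]
      exact Ideal.mul_mem_mul (hI a ha) (hI' b hb)
    | add a _ b _ ha hb =>
      rw [mul_add]
      exact Ideal.add_mem _ ha hb
  refine ⟨u * u', mul_ne_zero hu0 hu0', ?_, key h1 h1', key h2 h2'⟩
  change ((u : K) * u')⁻¹ ∈ W
  rw [mul_inv]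
  exact W.mul_mem _ _ huW huW'

lemma Lq_prod {ι : Type} (s : Finset ι) (I J : ι → Ideal A) (h : ∀ i ∈ s, Lq W (I i) (J i)) :
    Lq W (∏ i ∈ s, I i) (∏ i ∈ s, J i) := by
  classical
  induction s using Finset.induction_on with
  | empty =>
    rw [Finset.prod_empty, Finset.prod_empty]
    refine ⟨1, ?_, ?_, fun x hx => by rwa [one_mul], fun x hx => by rwa [one_mul]⟩
    · exact one_ne_zero
    · change (1 : K)⁻¹ ∈ W
      rw [inv_one]
      exact W.one_mem
  | insert a s ha ih =>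
    rw [Finset.prod_insert ha, Finset.prod_insert ha]
    exact Lq_mul (h a (Finset.mem_insert_self a s))
      (ih fun i hi => h i (Finset.mem_insert_of_mem hi))

/-- The charts of the blowings up of locally equal ideals. -/
theorem blow_local (hAW : A.toSubring ≤ W.toSubring) {𝔞 𝔟 : Ideal A} {u : A}
    (hu0 : (u : K) ≠ 0) (huW : (u : K)⁻¹ ∈ W) (h1 : ∀ x ∈ 𝔞, u * x ∈ 𝔟)
    (h2 : ∀ x ∈ 𝔟, u * x ∈ 𝔞) {w : A} (hw : w ∈ 𝔞) (hw0 : (w : K) ≠ 0)
    (hBW : (BW 𝔞 w).toSubring ≤ W.toSubring) :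
    (BW 𝔟 (u * w)).toSubring ≤ W.toSubring ∧
      lo W.toSubring (BW 𝔞 w).toSubring = lo W.toSubring (BW 𝔟 (u * w)).toSubring := by
  have huS : (u : K)⁻¹ ∈ lo W.toSubring (BW 𝔞 w).toSubring :=
    ic_lo hBW _ (le_lo _ _ (BW_A w u.2)) hu0 huW
  have h3 : (BW 𝔟 (u * w)).toSubring ≤ lo W.toSubring (BW 𝔞 w).toSubring := by
    refine BW_le (fun a ha => le_lo _ _ (BW_A w ha)) fun b hb => ?_
    have h4 : ((u * b : A) : K) / w ∈ lo W.toSubring (BW 𝔞 w).toSubring :=
      le_lo _ _ (BW_div w (h2 b hb))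
    have e : (b : K) / ((u * w : A) : K) = ((u * b : A) : K) / w * (u : K)⁻¹ * (u : K)⁻¹ := by
      change (b : K) / ((u : K) * w) = (u : K) * b / w * (u : K)⁻¹ * (u : K)⁻¹
      field_simp
    rw [e]
    exact Subring.mul_mem _ (Subring.mul_mem _ h4 huS) huS
  have h4 : (BW 𝔟 (u * w)).toSubring ≤ W.toSubring := h3.trans (lo_le hBW)
  refine ⟨h4, le_antisymm ?_ (lo_le_lo hBW h3)⟩
  refine lo_mono (BW_le (fun a ha => BW_A _ ha) fun a ha => ?_)
  have e : (a : K) / w = ((u * a : A) : K) / ((u * w : A) : K) := by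
    change (a : K) / w = (u : K) * a / ((u : K) * w)
    field_simp
  rw [e]
  exact BW_div _ (h1 a ha)

end lq

section fin

variable [Fintype G] (hst : ∀ g, ∀ a ∈ A, ρ g a ∈ A) {W : ValuationSubring K}

/-- The primes which are invertible. -/
def TW (W : ValuationSubring K) (l : ℕ) : Prop := ¬ NU W.toSubring (l : K)

/-- The factor. -/
noncomputable def JJ (M : ℕ) (g : G) : Ideal A :=
  (fixI hst g ^ ex (fun _ => True) g ⊔ Ideal.span {1 - (orderOf g : A) ^ M}) *
    (fixI hst g ^ Nat.card G ⊔ Ideal.span {(orderOf g : A) ^ M})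

/-- The ideal which is blown up. -/
noncomputable def AK (M : ℕ) : Ideal A := ∏ g ∈ NT G, JJ hst M g

lemma ex_le (T : ℕ → Prop) (g : G) : ex T g ≤ Nat.card G := by
  classical
  unfold ex
  split_ifs with h
  · exact Nat.ordCompl_le _ _
  · exact le_rfl

lemma ex_TW_pos {g : G} (h : TW W (orderOf g)) : ex (TW W) g = ex (fun _ => True) g := by
  classical
  unfold ex
  by_cases hp : (orderOf g).Prime
  · rw [if_pos ⟨hp, h⟩, if_pos ⟨hp, trivial⟩]
  · rw [if_neg (fun h => hp h.1), if_neg (fun h => hp h.1)]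

lemma ex_TW_neg {g : G} (h : ¬ TW W (orderOf g)) : ex (TW W) g = Nat.card G := by
  classical
  unfold ex
  rw [if_neg (fun h' => h h'.2)]

lemma jj_pos {R : Type} [CommRing R] {F : Ideal R} {e N : ℕ} (he : e ≤ N) {b : R}
    (hb : b * (1 - b) ∈ F ^ N) :
    (∀ x ∈ (F ^ e ⊔ Ideal.span {1 - b}) * (F ^ N ⊔ Ideal.span {b}), b * x ∈ F ^ e) ∧
      ∀ x ∈ F ^ e, b * x ∈ (F ^ e ⊔ Ideal.span {1 - b}) * (F ^ N ⊔ Ideal.span {b}) := by
  constructor
  · intro x hx
    have h2 : x ∈ F ^ e ⊔ Ideal.span {1 - b} := Ideal.mul_le_left hx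
    obtain ⟨y, hy, z, hz, rfl⟩ := Submodule.mem_sup.1 h2
    rw [mul_add]
    refine Ideal.add_mem _ (Ideal.mul_mem_left _ _ hy) ?_
    obtain ⟨c, rfl⟩ := Ideal.mem_span_singleton'.1 hz
    have e : b * (c * (1 - b)) = c * (b * (1 - b)) := by ring
    rw [e]
    exact Ideal.mul_mem_left _ _ (Ideal.pow_le_pow_right he hb)
  · intro x hx
    rw [mul_comm b x]
    exact Ideal.mul_mem_mul (Ideal.mem_sup_left hx)
      (Ideal.mem_sup_right (Ideal.mem_span_singleton_self _))

lemma jj_neg {R : Type} [CommRing R] {F : Ideal R} {e N : ℕ} {b : R}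
    (hb : b * (1 - b) ∈ F ^ N) :
    (∀ x ∈ (F ^ e ⊔ Ideal.span {1 - b}) * (F ^ N ⊔ Ideal.span {b}), (1 - b) * x ∈ F ^ N) ∧
      ∀ x ∈ F ^ N, (1 - b) * x ∈ (F ^ e ⊔ Ideal.span {1 - b}) * (F ^ N ⊔ Ideal.span {b}) := by
  constructor
  · intro x hx
    have h4 : x ∈ F ^ N ⊔ Ideal.span {b} := Ideal.mul_le_right hx
    obtain ⟨y, hy, z, hz, rfl⟩ := Submodule.mem_sup.1 h4
    rw [mul_add]
    refine Ideal.add_mem _ (Ideal.mul_mem_left _ _ hy) ?_
    obtain ⟨c, rfl⟩ := Ideal.mem_span_singleton'.1 hz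
    have e : (1 - b) * (c * b) = c * (b * (1 - b)) := by ring
    rw [e]
    exact Ideal.mul_mem_left _ _ hb
  · intro x hx
    exact Ideal.mul_mem_mul (Ideal.mem_sup_right (Ideal.mem_span_singleton_self _))
      (Ideal.mem_sup_left hx)

lemma JJ_local (hAW : A.toSubring ≤ W.toSubring) {M : ℕ} (hM : 1 ≤ M) {g : G} {s : A}
    (hs : s ∈ fixI hst g ^ Nat.card G)
    (hsM : ∃ c : A, (orderOf g : A) ^ M * (1 - (orderOf g : A) ^ M) = s * c) :
    Lq W (JJ hst M g) (fixI hst g ^ ex (TW W) g) := by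
  obtain ⟨b, hb⟩ : ∃ b : A, b = (orderOf g : A) ^ M := ⟨_, rfl⟩
  have hJJ : JJ hst M g = (fixI hst g ^ ex (fun _ => True) g ⊔ Ideal.span {1 - b}) *
      (fixI hst g ^ Nat.card G ⊔ Ideal.span {b}) := by
    rw [hb]
    rfl
  rw [hJJ]
  rw [← hb] at hsM
  have hbs : b * (1 - b) ∈ fixI hst g ^ Nat.card G := by
    obtain ⟨c, hc⟩ := hsM
    rw [hc]
    exact Ideal.mul_mem_right _ _ hs
  have hbK : (b : K) = (orderOf g : K) ^ M := by
    rw [hb]
    push_cast
    rfl
  clear hb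
  by_cases h : TW W (orderOf g)
  · -- the order is invertible
    have h1 : ((orderOf g : ℕ) : K) ≠ 0 ∧ ((orderOf g : ℕ) : K)⁻¹ ∈ W := by
      unfold TW at h
      rw [NU, not_not] at h
      exact h
    obtain ⟨h5, h6⟩ := jj_pos (ex_le (fun _ => True) g) hbs
    refine ⟨b, by rw [hbK]; exact pow_ne_zero _ h1.1, ?_, ?_, ?_⟩
    · rw [hbK, ← inv_pow]
      exact pow_mem h1.2 M
    · rw [ex_TW_pos h]
      exact h5
    · rw [ex_TW_pos h]
      exact h6
  · -- the order is not invertible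
    have h1 : W.valuation ((orderOf g : ℕ) : K) < 1 := by
      unfold TW at h
      rw [not_not] at h
      exact (nu_iff (natCast_mem W _)).1 h
    have h2 : W.valuation (b : K) < 1 := by
      rw [hbK, map_pow]
      exact pow_lt_one₀ zero_le h1 (by omega)
    have h3 : W.valuation (1 - (b : K)) = 1 := by
      rw [Valuation.map_sub_eq_of_lt_left _ (by rw [map_one]; exact h2), map_one]
    have h30 : 1 - (b : K) ≠ 0 := by
      intro h0
      rw [h0, map_zero] at h3
      exact zero_ne_one h3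
    obtain ⟨h5, h6⟩ := jj_neg (e := ex (fun _ => True) g) hbs
    refine ⟨1 - b, h30, ?_, ?_, ?_⟩
    · change (1 - (b : K))⁻¹ ∈ W
      rw [← W.valuation_le_one_iff, map_inv₀, h3, inv_one]
    · rw [ex_TW_neg h]
      exact h5
    · rw [ex_TW_neg h]
      exact h6

/-- The ideal at the centre of a valuation ring. -/
theorem AK_local (hAW : A.toSubring ≤ W.toSubring) {M : ℕ} (hM : 1 ≤ M) {s : A}
    (hs : ∀ g ∈ NT G, s ∈ fixI hst g ^ Nat.card G)
    (hsM : ∀ n : ℕ, ∃ c : A, (n : A) ^ M * (1 - (n : A) ^ M) = s * c) :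
    Lq W (AK hst M) (AJ hst (ex (TW W))) := by
  unfold AK AJ PI
  exact Lq_prod _ _ _ fun g hg => JJ_local hst hAW hM (hs g hg) (hsM _)

lemma AK_act {M : ℕ} (h : G) : ∀ x ∈ AK hst M, act hst h x ∈ AK hst M := by
  classical
  have h1 : ∀ s : Finset G, (∏ g ∈ s, JJ hst M g).map (act hst h) =
      ∏ g ∈ s, (JJ hst M g).map (act hst h) := by
    intro s
    induction s using Finset.induction_on with
    | empty =>
      rw [Finset.prod_empty, Finset.prod_empty, Ideal.one_eq_top, Ideal.map_top]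
    | insert a s ha ih =>
      rw [Finset.prod_insert ha, Finset.prod_insert ha, Ideal.map_mul, ih]
  have horder : ∀ g : G, orderOf (h * g * h⁻¹) = orderOf g := fun g =>
    MulEquiv.orderOf_eq (MulAut.conj h) g
  have h2 : ∀ g : G, (JJ hst M g).map (act hst h) ≤ JJ hst M (h * g * h⁻¹) := by
    intro g
    unfold JJ
    rw [Ideal.map_mul, Ideal.map_sup, Ideal.map_sup, Ideal.map_pow, Ideal.map_pow,
      Ideal.map_span, Ideal.map_span, Set.image_singleton, Set.image_singleton, map_sub, map_one,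
      map_pow, map_natCast, horder, ex_conj]
    exact Ideal.mul_mono (sup_le_sup (Ideal.pow_right_mono (fixI_conj hst g h) _) le_rfl)
      (sup_le_sup (Ideal.pow_right_mono (fixI_conj hst g h) _) le_rfl)
  have h3 : (AK hst M).map (act hst h) ≤ AK hst M := by
    unfold AK
    rw [h1]
    calc ∏ g ∈ NT G, (JJ hst M g).map (act hst h)
        ≤ ∏ g ∈ NT G, JJ hst M (h * g * h⁻¹) := Finset.prod_le_prod' fun g _ => h2 g
      _ = ∏ g ∈ NT G, JJ hst M g := by
          refine Finset.prod_bij' (fun g _ => h * g * h⁻¹) (fun g _ => h⁻¹ * g * h) ?_ ?_ ?_ ?_ ?_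
          · intro g hg
            rw [mem_NT] at hg ⊢
            exact fun h2 => hg (by rwa [conj_eq_one_iff] at h2)
          · intro g hg
            rw [mem_NT] at hg ⊢
            refine fun h2 => hg ?_
            have h3 : g = h * (h⁻¹ * g * h) * h⁻¹ := by group
            rw [h3, h2]
            group
          · intro g _
            group
          · intro g _
            group
          · intro g _
            rfl
  exact fun x hx => h3 (Ideal.mem_map_of_mem _ hx)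

/-- The elements of the intersection of `AK` with the base. -/
lemma AK_mem {M : ℕ} {s : A} (hs : ∀ g ∈ NT G, s ∈ fixI hst g ^ Nat.card G) :
    s ^ (2 * (NT G).card) ∈ AK hst M := by
  classical
  have h1 : ∀ g ∈ NT G, s ^ 2 ∈ JJ hst M g := by
    intro g hg
    unfold JJ
    rw [pow_two]
    exact Ideal.mul_mem_mul (Ideal.mem_sup_left (Ideal.pow_le_pow_right (ex_le _ g) (hs g hg)))
      (Ideal.mem_sup_left (hs g hg))
  have h2 : ∏ g ∈ NT G, s ^ 2 ∈ AK hst M := by
    unfold AK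
    exact Ideal.prod_mem_prod h1
  rwa [Finset.prod_const, ← pow_mul] at h2

end fin

end Pool.Agent.N864.GR
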