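import Pool.Agent.N864.GR.Pts3
import Pool.Agent.N864.GQ.Num

/-!
# Quotients over number fields
-/

set_option autoImplicit false
set_option linter.unusedSectionVars false
set_option linter.unusedVariables false

open scoped Pointwise

open AlgebraicGeometry CategoryTheory CategoryTheory.Limits MvPolynomial NumberField

namespace Pool.Agent.N864.GR

open Pool.Agent.Y223.G Pool.Agent.TH214.RM Pool.Agent.H918R2.Quad Pool.Agent.W418
  Pool.Agent.N864.GQ
open Pool.Agent.Y25.G (MN_mul MN_one MN_zero MN_z MN_succ MN_pow_z FS_pow FS_mul FS_one)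

section

lemma exists_num {E : Type} [Field E] [NumberField E] (s : 𝓞 E) (hs : s ≠ 0) :
    ∃ M : ℕ, 1 ≤ M ∧ ∀ n : ℕ, ∃ c : 𝓞 E, (n : 𝓞 E) ^ M * (1 - (n : 𝓞 E) ^ M) = s * c := by
  classical
  have hfin : Finite (𝓞 E ⧸ Ideal.span {s}) :=
    Ideal.finiteQuotientOfFreeOfNeBot _ fun h => hs (Ideal.span_singleton_eq_bot.1 h)
  obtain ⟨M, hM, h⟩ := exists_idem (𝓞 E ⧸ Ideal.span {s})
  refine ⟨M, hM, fun n => ?_⟩
  have h1 := h (Ideal.Quotient.mk _ (n : 𝓞 E))
  rw [← map_pow, ← map_one (Ideal.Quotient.mk (Ideal.span {s})), ← map_sub, ← map_mul,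
    Ideal.Quotient.eq_zero_iff_mem, Ideal.mem_span_singleton] at h1
  exact h1

variable {E F K A : Type} [Field E] [NumberField E] [Field F] [Algebra E F] [Field K] [Algebra F K]
  [Algebra E K] [IsScalarTower E F K] [Algebra (𝓞 E) K] [IsScalarTower (𝓞 E) E K]

theorem gq_good3 [Algebra (𝓞 E) F] [IsScalarTower (𝓞 E) E F] [FiniteDimensional F K] [IsGalois F K]
    {n : ℕ} (x : Fin (n + 1) → F) {m : ℕ} (z : Fin (m + 1) → K) (hz : ∀ j, z j ≠ 0)
    (hreg : ∀ j, IsRegularRing (CC (𝓞 E) z j))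
    (hgen : IntermediateField.adjoin E (Set.range fun j => z j / z 0) = ⊤)
    (hlin : ∀ (σ : K ≃ₐ[F] K) j, σ (z j) ∈ Submodule.span (𝓞 E) (Set.range z))
    (ρ : (K ≃ₐ[F] K) →* (K ≃ₐ[𝓞 E] K)) (hρ : ∀ σ y, ρ σ y = σ y)
    (hpt : ∀ j (𝔮 : Ideal (CC (𝓞 E) z j)) [𝔮.IsPrime],
      InertiaCondition3 ρ (LocalSubring.ofPrime (CC (𝓞 E) z j) 𝔮).toSubring)
    (c k₀ : ℕ) (hc : 1 ≤ c)
    (hq : ∀ k, k₀ ≤ k → ∀ f : F, algebraMap F K f ∈ Submodule.span E (Set.range z ^ (c * k)) ↔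
      f ∈ Submodule.span E (Set.range x ^ k)) : GoodModule (𝓞 E) x := by
  classical
  have h3 : IsScalarTower (𝓞 E) F K := IsScalarTower.of_algebraMap_eq fun a => by
    rw [IsScalarTower.algebraMap_apply (𝓞 E) E K, IsScalarTower.algebraMap_apply E F K,
      IsScalarTower.algebraMap_apply (𝓞 E) E F]
  have hinj : Function.Injective (algebraMap (𝓞 E) K) := by
    rw [IsScalarTower.algebraMap_eq (𝓞 E) E K]
    exact (algebraMap E K).injective.comp RingOfIntegers.coe_injective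
  have hfin : Finite (K ≃ₐ[F] K) := inferInstance
  set M₀ : Submodule (𝓞 E) F := Submodule.span (𝓞 E) (Set.range x) with hM₀
  have hfg : M₀.FG := Submodule.fg_span (Set.finite_range x)
  have hpow : ∀ k, M₀ ^ k = Submodule.span (𝓞 E) (Set.range x ^ k) := fun k =>
    Submodule.span_pow _ _
  obtain ⟨M', hM'fg, hM'0, -, hreg', n', hn', hle, hge⟩ := gq_module3 (O := 𝓞 E) (F := F) hinj
    exists_num ρ
    (by
      intro y
      constructor
      · intro hy
        have h4 : y ∈ (⊥ : IntermediateField F K) :=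
          (IsGalois.mem_bot_iff_fixed y).2 fun σ => (hρ σ y).symm.trans (hy σ)
        exact IntermediateField.mem_bot.1 h4
      · rintro ⟨f, rfl⟩ σ
        rw [hρ]
        exact σ.commutes f)
    (by
      intro σ τ hστ
      ext y
      rw [← hρ, ← hρ, hστ])
    z hz
    (by
      intro S hO hS
      have h4 : ∀ e : E, algebraMap E K e ∈ S := by
        intro e
        obtain ⟨a, b, hb, rfl⟩ := IsFractionRing.div_surjective (A := 𝓞 E) e
        rw [map_div₀, ← IsScalarTower.algebraMap_apply, ← IsScalarTower.algebraMap_apply]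
        exact div_mem (hO a) (hO b)
      let S' : IntermediateField E K := { S with algebraMap_mem' := h4 }
      have h5 : (⊤ : IntermediateField E K) ≤ S' := by
        rw [← hgen, IntermediateField.adjoin_le_iff]
        rintro _ ⟨j, rfl⟩
        exact hS j 0
      rw [eq_top_iff]
      intro y _
      exact h5 (IntermediateField.mem_top (x := y)))
    (fun σ j => by rw [hρ]; exact hlin σ j)
    (fun W j hW => ptc_chart3 (hreg j) (hpt j) W hW)
    M₀ hfg c k₀ hc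
    (by
      intro k hk f
      unfold FS
      rw [sat_iff, hpow, sat_iff, MN_eq]
      exact hq k hk f)
  refine Pool.Agent.Y223.INV.goodModule_of (E := E) hn' hM'fg hM'0 one_ne_zero ?_ ?_ hreg'
  · intro f hf
    rw [one_mul]
    have h4 := hle f hf
    rwa [hpow, sat_iff] at h4
  · intro y hy
    obtain ⟨c, hc, hcy⟩ := Pool.Agent.W418.exists_smul_span (O := 𝓞 E) (K := E)
      (Set.range x ^ n') y hy
    rw [← hpow] at hcy
    obtain ⟨d, hd, hdy⟩ := hge _ hcy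
    refine ⟨d * c, mul_ne_zero hd hc, ?_⟩
    rw [div_one, mul_smul]
    exact hdy

theorem gq_model_O3 [FiniteDimensional F K] [IsGalois F K] [CommRing A] [Algebra E A]
    {n : ℕ} (x : Fin (n + 1) → F)
    (π : MvPolynomial (Fin (n + 1)) E →ₐ[E] A)
    (hπ : Function.Surjective π) (𝒜 : ℕ → Submodule E A) [GradedAlgebra 𝒜]
    (h𝒜 : ∀ d, 𝒜 d = (homogeneousSubmodule (Fin (n + 1)) E d).map π.toLinearMap)
    (hx : ∀ d, ∀ P ∈ homogeneousSubmodule (Fin (n + 1)) E d, π P = 0 ↔ aeval x P = 0)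
    {m : ℕ} (z : Fin (m + 1) → K) (hz : ∀ j, z j ≠ 0)
    (hreg : ∀ j, IsRegularRing (CC (𝓞 E) z j))
    (hgen : IntermediateField.adjoin E (Set.range fun j => z j / z 0) = ⊤)
    (hlin : ∀ (σ : K ≃ₐ[F] K) j, σ (z j) ∈ Submodule.span (𝓞 E) (Set.range z))
    (ρ : (K ≃ₐ[F] K) →* (K ≃ₐ[𝓞 E] K)) (hρ : ∀ σ y, ρ σ y = σ y)
    (hpt : ∀ j (𝔮 : Ideal (CC (𝓞 E) z j)) [𝔮.IsPrime],
      InertiaCondition3 ρ (LocalSubring.ofPrime (CC (𝓞 E) z j) 𝔮).toSubring)
    (c k₀ : ℕ) (hc : 1 ≤ c)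
    (hq : ∀ k, k₀ ≤ k → ∀ f : F, algebraMap F K f ∈ Submodule.span E (Set.range z ^ (c * k)) ↔
      f ∈ Submodule.span E (Set.range x ^ k))
    {Y : Scheme.{0}} (f : Y ⟶ Spec (CommRingCat.of E)) (i : Y ≅ Proj 𝒜)
    (hi : i.hom ≫ GO.projStr 𝒜 = f) : GO.HasModel (𝓞 E) E f := by
  let _ : Algebra (𝓞 E) F := ((algebraMap E F).comp (algebraMap (𝓞 E) E)).toAlgebra
  have hst : IsScalarTower (𝓞 E) E F := IsScalarTower.of_algebraMap_eq fun _ => rfl
  have hM := gq_good3 x z hz hreg hgen hlin ρ hρ hpt c k₀ hc hq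
  obtain ⟨ε, hε, hεgen, hε1⟩ := Pool.Agent.Y223.INV.exists_eps2 x π hπ 𝒜 h𝒜 hx
  exact hasModel_of_goodModule (O := 𝓞 E) 𝒜 ε hε hεgen x hε1 hM f i hi

end

end Pool.Agent.N864.GR
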