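import Pool.Agent.N864.GR.Main3
import Pool.Agent.N864.GQ.Pts

/-!
# The conditions at the points
-/

set_option autoImplicit false
set_option linter.unusedSectionVars false
set_option linter.unusedVariables false

namespace Pool.Agent.N864.GR

open IsLocalRing Pool.Agent.Y223.G Pool.Agent.TH188.QS Pool.Agent.W418.LU2 Pool.Agent.TH188.ARC
  Pool.Agent.Y223.INV Pool.Agent.N864.GQ

variable {O K G : Type} [CommRing O] [Field K] [Algebra O K] [Group G]

/-- The conditions on the inertia group. -/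
def InertiaCondition3 (ρ : G →* (K ≃ₐ[O] K)) (R : Subring K) : Prop :=
  (∀ g, IsFixed (ρ g) R → g = 1) ∨
    ((∃ s : O, s ≠ 0 ∧ ∃ y : R, (y : K) = algebraMap O K s ∧ ¬ IsUnit y) ∧
      ∃ τ : G, (∀ g, IsFixed (ρ g) R ↔ g ∈ Subgroup.zpowers τ) ∧
        (IsUnit ((orderOf τ : ℕ) : R) ∨
          ((orderOf τ).Prime ∧ ∃ (t : R) (δ : R → R), t ≠ 0 ∧ (∀ x : R, ρ τ x = x + t * δ x) ∧
            (Ideal.span (Set.range δ) = ⊤ ∨
              (IsRegularLocalRing (R ⧸ Ideal.span (Set.range δ)) ∧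
                (orderOf τ = 2 ∨ ActsByScalar (ρ τ) R))))))

variable {ρ : G →* (K ≃ₐ[O] K)} {W : ValuationSubring K} {Q : Subring K}

/-- The conditions at the points. -/
theorem ptc_of3 (hQW : Q ≤ W.toSubring) (hIC : IC W.toSubring Q) (hreg : IsRegularLocalRing Q)
    (h : InertiaCondition3 ρ Q) : PTC3 O ρ W Q := by
  classical
  have hmax : ∀ y : Q, y ∈ maximalIdeal Q ↔ NU W.toSubring (y : K) := mem_max_iff hQW hIC
  have hfx : ∀ g, Fx (ρ g) W Q ↔ IsFixed (ρ g) Q := fun g => fx_iff hQW hIC hreg (ρ g)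
  have hnat : ∀ l : ℕ, IsUnit ((l : ℕ) : Q) ↔ TW W l := by
    intro l
    have h1 := hmax ((l : ℕ) : Q)
    rw [mem_maximalIdeal, mem_nonunits_iff] at h1
    have h2 : (((l : ℕ) : Q) : K) = (l : K) := by push_cast; rfl
    rw [h2] at h1
    unfold TW
    rw [← h1, not_not]
  rcases h with h | ⟨⟨s, hs, y, hy, hyu⟩, τ, hI, hG⟩
  · exact ⟨⟨hreg, Or.inl fun g hg => h g ((hfx g).1 hg)⟩, fun _ g hg => h g ((hfx g).1 hg)⟩
  refine ⟨⟨hreg, Or.inr ?_⟩, fun h3 => absurd ((hmax y).1 ((mem_maximalIdeal _).2 hyu))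
    (hy ▸ h3 s hs)⟩
  by_cases hu : IsUnit ((orderOf τ : ℕ) : Q)
  · refine Or.inr ⟨τ, fun g => (hfx g).trans (hI g), hu, fun l _ hl => (hnat l).1 ?_⟩
    obtain ⟨k, hk⟩ := hl
    rw [hk, Nat.cast_mul] at hu
    exact isUnit_of_mul_isUnit_left hu
  obtain ⟨hp, t, δ, ht0, hδ, hJ⟩ := hG.resolve_left hu
  left
  obtain ⟨p, hτ⟩ : ∃ p, orderOf τ = p := ⟨_, rfl⟩
  rw [hτ] at hp hu hJ
  have hτp : τ ^ p = 1 := by rw [← hτ, pow_orderOf_eq_one]
  have hF : Fx (ρ τ) W Q := (hfx τ).2 ((hI τ).2 (Subgroup.mem_zpowers τ))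
  have hloc : IsLocalRing Q := hreg.toIsLocalRing
  have h22 : p = 2 → ∀ x, ρ τ (ρ τ x) = x := by
    intro h2 x
    rw [h2] at hτp
    rw [← AlgEquiv.mul_apply, ← map_mul, ← pow_two, hτp, map_one]
    rfl
  refine ⟨p, τ, hp, fun h => hu ((hnat p).2 h), hτ, fun g hg => (hI g).1 ((hfx g).1 hg), ?_, hF, ?_⟩
  · exact gd_of_regular hQW hIC hreg ⟨t, δ, ht0, hδ, hJ.imp id And.left⟩
  · have hsc2 : p = 2 → ∃ u, ∀ x ∈ fixR (qact hF), qact hF x - u * x ∈ fixR (qact hF) ^ 2 :=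
      fun h2 => ⟨-1, sc_two fun x => Subtype.ext (h22 h2 x)⟩
    have hfi : fixedIdeal (ρ τ) Q = fixR (qact hF) := by
      unfold fixedIdeal fixR
      congr 1
      ext y
      constructor
      · rintro ⟨x, hx⟩
        exact ⟨x, Subtype.ext hx⟩
      · rintro ⟨x, hx⟩
        exact ⟨x, congrArg Subtype.val hx⟩
    have hsc : ActsByScalar (ρ τ) Q →
        ∃ u, ∀ x ∈ fixR (qact hF), qact hF x - u * x ∈ fixR (qact hF) ^ 2 := by
      rintro ⟨u, hu⟩
      rw [hfi] at hu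
      exact ⟨u, fun x hx => hu x hx _ rfl⟩
    rcases hJ with hJ | ⟨hJ, h2⟩
    · exact sc_top (t := t) (δ := δ) (fun x => Subtype.ext (hδ x)) hJ
    · exact h2.elim hsc2 hsc

/-- The conditions at the primes of the charts. -/
theorem ptc_chart3 {m : ℕ} {z : Fin (m + 1) → K} {j : Fin (m + 1)}
    (hreg : IsRegularRing (CC O z j))
    (hpt : ∀ (𝔮 : Ideal (CC O z j)) [𝔮.IsPrime],
      InertiaCondition3 ρ (LocalSubring.ofPrime (CC O z j) 𝔮).toSubring)
    (W : ValuationSubring K) (hcW : CC O z j ≤ W.toSubring) :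
    PTC3 O ρ W (lo W.toSubring (CC O z j)) := by
  classical
  let φ : CC O z j →+* W := (CC O z j).subtype.codRestrict W fun x => hcW x.2
  let P : Ideal (CC O z j) := (maximalIdeal W).comap φ
  have hP : P.IsPrime := Ideal.comap_isPrime _ _
  have hPN : ∀ a : CC O z j, a ∈ P ↔ NU W.toSubring (a : K) := by
    intro a
    have h1 : a ∈ P ↔ φ a ∈ maximalIdeal W := Iff.rfl
    rw [h1, mem_maximalIdeal, mem_nonunits_iff, NU, not_iff_not]
    constructor
    · intro h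
      obtain ⟨y, hy⟩ := isUnit_iff_exists_inv.1 h
      have h2 : (a : K) * y = 1 := congrArg Subtype.val hy
      refine ⟨left_ne_zero_of_mul_eq_one h2, ?_⟩
      rw [← eq_inv_of_mul_eq_one_right h2]
      exact y.2
    · rintro ⟨h2, h3⟩
      exact isUnit_iff_exists_inv.2 ⟨⟨_, h3⟩, Subtype.ext (mul_inv_cancel₀ h2)⟩
  have hR := ofPrime_eq_lo hcW P hPN
  have hpt' := hpt P
  have hregR : IsRegularLocalRing (LocalSubring.ofPrime (CC O z j) P).toSubring :=
    IsRegularLocalRing.of_ringEquiv (LocalSubring.ofPrimeEquiv (CC O z j) P).toRingEquiv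
  rw [hR] at hpt' hregR
  exact ptc_of3 (lo_le hcW) (ic_lo hcW) hregR hpt'

end Pool.Agent.N864.GR
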