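import Pool.Agent.N864.GR.Grp
import Pool.Agent.N864.GR.Ideal
import Pool.Agent.N864.GQ.Fix

/-!
# Residues, and tame inertia groups outside of the vertex
-/

set_option autoImplicit false
set_option linter.unusedSectionVars false
set_option linter.unusedVariables false

namespace Pool.Agent.N864.GR

open IsLocalRing Pool.Agent.Y223.G Pool.Agent.TH188.QS Pool.Agent.W418.LU2 Pool.Agent.TH188.ARC
  Pool.Agent.Y223.INV Pool.Agent.N864.GQ

section residue

variable {K : Type} [Field K] (W : ValuationSubring K)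

open scoped Classical in
/-- The residue. -/
noncomputable def rs (x : K) : ResidueField W := if h : x ∈ W then residue W ⟨x, h⟩ else 0

variable {W}

lemma rs_eq {x : K} (h : x ∈ W) : rs W x = residue W ⟨x, h⟩ := dif_pos h

lemma rs_mul {x y : K} (hx : x ∈ W) (hy : y ∈ W) : rs W (x * y) = rs W x * rs W y := by
  rw [rs_eq hx, rs_eq hy, rs_eq (W.mul_mem _ _ hx hy), ← map_mul]
  rfl

lemma rs_one : rs W (1 : K) = 1 := by
  rw [rs_eq W.one_mem]
  exact map_one (residue W)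

lemma rs_pow {x : K} (hx : x ∈ W) (n : ℕ) : rs W (x ^ n) = rs W x ^ n := by
  rw [rs_eq hx, rs_eq (pow_mem hx n), ← map_pow]
  rfl

lemma rs_prod {ι : Type} (s : Finset ι) (f : ι → K) (hf : ∀ i ∈ s, f i ∈ W) :
    (∏ i ∈ s, f i) ∈ W ∧ rs W (∏ i ∈ s, f i) = ∏ i ∈ s, rs W (f i) := by
  classical
  induction s using Finset.induction_on with
  | empty =>
    rw [Finset.prod_empty, Finset.prod_empty]
    exact ⟨W.one_mem, rs_one⟩
  | insert a s ha ih =>
    rw [Finset.prod_insert ha, Finset.prod_insert ha]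
    obtain ⟨h1, h2⟩ := ih fun i hi => hf i (Finset.mem_insert_of_mem hi)
    have h3 := hf a (Finset.mem_insert_self a s)
    exact ⟨W.mul_mem _ _ h3 h1, by rw [rs_mul h3 h1, h2]⟩

lemma rs_sum {ι : Type} (s : Finset ι) (f : ι → K) (hf : ∀ i ∈ s, f i ∈ W) :
    (∑ i ∈ s, f i) ∈ W ∧ rs W (∑ i ∈ s, f i) = ∑ i ∈ s, rs W (f i) := by
  classical
  induction s using Finset.induction_on with
  | empty =>
    rw [Finset.sum_empty, Finset.sum_empty]
    refine ⟨W.zero_mem, ?_⟩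
    rw [rs_eq W.zero_mem]
    exact map_zero (residue W)
  | insert a s ha ih =>
    rw [Finset.sum_insert ha, Finset.sum_insert ha]
    obtain ⟨h1, h2⟩ := ih fun i hi => hf i (Finset.mem_insert_of_mem hi)
    have h3 := hf a (Finset.mem_insert_self a s)
    refine ⟨W.add_mem _ _ h3 h1, ?_⟩
    rw [← h2, rs_eq h3, rs_eq h1, rs_eq (W.add_mem _ _ h3 h1), ← map_add]
    rfl

lemma rs_congr {x y : K} (hy : y ∈ W) (h : W.valuation (x - y) < 1) :
    x ∈ W ∧ rs W x = rs W y := by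
  have h1 : x - y ∈ W := (W.valuation_le_one_iff _).1 h.le
  have hx : x ∈ W := by
    have e : x = (x - y) + y := by ring
    rw [e]
    exact W.add_mem _ _ h1 hy
  refine ⟨hx, ?_⟩
  rw [rs_eq hx, rs_eq hy, ← sub_eq_zero, ← map_sub, residue_eq_zero_iff, W.valuation_lt_one_iff]
  exact h

lemma rs_zero_of {x : K} (hx : x ∈ W) (h : rs W x = 0) : W.valuation x < 1 := by
  rw [rs_eq hx, residue_eq_zero_iff, W.valuation_lt_one_iff] at h
  exact h

lemma inv_mem_of_rs {x : K} (hx : x ∈ W) (h : rs W x ≠ 0) : x ≠ 0 ∧ x⁻¹ ∈ W := by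
  have h1 : ¬ NU W.toSubring x := by
    intro h2
    apply h
    rw [nu_iff hx] at h2
    rw [rs_eq hx, residue_eq_zero_iff, W.valuation_lt_one_iff]
    exact h2
  rw [NU, not_not] at h1
  exact h1

end residue

variable {O K G : Type} [CommRing O] [Field K] [Algebra O K] [Group G]
  {ρ : G →* (K ≃ₐ[O] K)} {A : Subalgebra O K} (hst : ∀ g, ∀ a ∈ A, ρ g a ∈ A)

section tame

variable [Fintype G] {e : G → ℕ} {W : ValuationSubring K}

lemma fixI_fg_max [IsNoetherianRing A] (hAW : A.toSubring ≤ W.toSubring) {τ : G}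
    (hne : fixI hst τ ≠ ⊥) : ∃ a₀ : A, ((act hst τ a₀ - a₀ : A) : K) ≠ 0 ∧
      ∀ l ∈ fixI hst τ, (l : K) / ((act hst τ a₀ - a₀ : A) : K) ∈ W := by
  classical
  obtain ⟨T, hT, hTs⟩ := Submodule.fg_span_iff_fg_span_finset_subset
    {x : A | ∃ a : A, x = act hst τ a - a} |>.1 (IsNoetherian.noetherian (fixI hst τ))
  have hTne : T.Nonempty := by
    by_contra hcon
    rw [Finset.not_nonempty_iff_eq_empty] at hcon
    apply hne
    change Submodule.span A _ = ⊥
    rw [hTs, hcon, Finset.coe_empty, Submodule.span_empty]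
  obtain ⟨x, hxT, hx⟩ := T.exists_max_image (fun x : A => W.valuation (x : K)) hTne
  obtain ⟨a₀, rfl⟩ := hT hxT
  have hx0 : ((act hst τ a₀ - a₀ : A) : K) ≠ 0 := by
    intro h0
    apply hne
    rw [eq_bot_iff]
    change Submodule.span A _ ≤ _
    rw [hTs, Submodule.span_le]
    intro y hy
    have h1 := hx y hy
    rw [h0, map_zero] at h1
    have h2 : W.valuation (y : K) = 0 := le_antisymm h1 zero_le
    rw [map_eq_zero] at h2
    exact (Submodule.mem_bot A).2 (Subtype.ext h2)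
  refine ⟨a₀, hx0, ?_⟩
  intro l hl
  have hl' : l ∈ Submodule.span A (T : Set A) := by rw [← hTs]; exact hl
  clear hl
  induction hl' using Submodule.span_induction with
  | mem y hy =>
    rw [← W.valuation_le_one_iff, map_div₀]
    exact div_le_one_of_le₀ (hx y hy) zero_le
  | zero =>
    rw [ZeroMemClass.coe_zero, zero_div]
    exact W.zero_mem
  | add a b _ _ ha hb =>
    rw [AddMemClass.coe_add, add_div]
    exact W.add_mem _ _ ha hb
  | smul r a _ ha =>
    have : ((r • a : A) : K) / ((act hst τ a₀ - a₀ : A) : K) =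
        (r : K) * ((a : K) / ((act hst τ a₀ - a₀ : A) : K)) := mul_div_assoc _ _ _
    rw [this]
    exact W.mul_mem _ _ (hAW r.2) ha

/-- A tame automorphism `τ` of prime order `l` is not in the inertia group of a point outside of
the vertex. -/
theorem tame_free [IsNoetherianRing A] (hAW : A.toSubring ≤ W.toSubring) {s : Finset G}
    {l : ℕ} (hl : l.Prime) {τ : G} (hτ : orderOf τ = l) (hlW : ((l : K))⁻¹ ∈ W)
    (hl0 : (l : K) ≠ 0)
    (hne : ∀ g ∈ s, fixI hst g ≠ ⊥) (hcomm : ∀ g ∈ s, τ * g = g * τ)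
    (hτs : ∀ g ∈ Subgroup.zpowers τ, g ≠ 1 → g ∈ s)
    (he : ∀ g ∈ s, 1 ≤ e g) (hdvd : ∀ g ∈ s, g ∉ Subgroup.zpowers τ → l ∣ e g)
    (hcop : ∀ r : Finset G, (∀ g, g ∈ r ↔ g ∈ Subgroup.zpowers τ ∧ g ≠ 1) →
      l.Coprime (∑ g ∈ r, e g))
    {V : Ideal A} {v₀ : A} (hv₀ : v₀ ∈ V) (hv0 : (v₀ : K) ≠ 0) (hvW : (v₀ : K)⁻¹ ∈ W)
    (h1s : (1 : G) ∉ s)
    {w : A} (hw : w ∈ PI hst e s * V) (hw0 : (w : K) ≠ 0)
    (hBW : (BW (PI hst e s * V) w).toSubring ≤ W.toSubring)
    (hin0 : ∀ a : A, W.valuation ((act hst τ a - a : A) : K) < 1)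
    (hin1 : ∀ b ∈ PI hst e s * V,
      W.valuation (((act hst τ b - b : A) : K) / w) < 1) : False := by
  classical
  have hτ1 : τ ≠ 1 := by
    rintro rfl
    rw [orderOf_one] at hτ
    exact hl.one_lt.ne hτ
  have hτmem : τ ∈ s := hτs τ (Subgroup.mem_zpowers τ) hτ1
  have hτl : τ ^ l = 1 := by rw [← hτ, pow_orderOf_eq_one]
  -- elements of the greatest value
  obtain ⟨a₀, ha0, ha₀⟩ := fixI_fg_max hst hAW (hne τ hτmem)
  set yτ : A := act hst τ a₀ - a₀ with hyτ
  have hy0 : ∀ g : G, ∃ y : A, g ∈ s → y ∈ fixI hst g ∧ (y : K) ≠ 0 ∧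
      ∀ l ∈ fixI hst g, (l : K) / y ∈ W := by
    intro g
    by_cases hg : g ∈ s
    · obtain ⟨a, ha, ha'⟩ := fixI_fg_max hst hAW (hne g hg)
      exact ⟨_, fun _ => ⟨fixI_mem hst g a, ha, ha'⟩⟩
    · exact ⟨0, fun h => absurd h hg⟩
  choose y' hy' using hy0
  set y : G → A := fun g => if g ∈ Subgroup.zpowers τ then yτ else y' g with hydef
  have hfixτ : ∀ g ∈ Subgroup.zpowers τ, g ≠ 1 → fixI hst g = fixI hst τ := fun g hg hg1 =>
    fixI_eq hst hl hτl hτ1 hg hg1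
  have hyτ' : ∀ g ∈ Subgroup.zpowers τ, y g = yτ := fun g hg => if_pos hg
  have hy : ∀ g ∈ s, y g ∈ fixI hst g ∧ (y g : K) ≠ 0 ∧ ∀ l ∈ fixI hst g, (l : K) / y g ∈ W := by
    intro g hg
    by_cases hgτ : g ∈ Subgroup.zpowers τ
    · have hg1 : g ≠ 1 := fun h => h1s (h ▸ hg)
      rw [hyτ' g hgτ, hfixτ g hgτ hg1]
      exact ⟨fixI_mem hst τ a₀, ha0, ha₀⟩
    · have h1 : y g = y' g := if_neg hgτ
      rw [h1]
      exact hy' g hg
  set Y : A := ∏ g ∈ s, y g ^ e g with hYdef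
  have hYK : (Y : K) = ∏ g ∈ s, (y g : K) ^ e g := by
    rw [hYdef]
    exact (map_prod A.val (fun g => y g ^ e g) s).trans
      (Finset.prod_congr rfl fun g _ => map_pow A.val (y g) (e g))
  have hY0 : (Y : K) ≠ 0 := by
    rw [hYK]
    exact Finset.prod_ne_zero_iff.2 fun g hg => pow_ne_zero _ (hy g hg).2.1
  have hYPI : Y ∈ PI hst e s := by
    unfold PI
    exact Ideal.prod_mem_prod fun g hg => Ideal.pow_mem_pow (hy g hg).1 _
  have hdivY : ∀ b ∈ PI hst e s, (b : K) / Y ∈ W.toSubring := by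
    unfold PI
    exact div_prodI hst (T := W.toSubring) (fun a ha => hAW ha) s fun g hg => (hy g hg).2.2
  set w' : A := Y * v₀ with hw'def
  have hw'K : (w' : K) = Y * v₀ := rfl
  have hw'0 : (w' : K) ≠ 0 := mul_ne_zero hY0 hv0
  have hw'mem : w' ∈ PI hst e s * V := Ideal.mul_mem_mul hYPI hv₀
  have hww' : (w : K) / w' ∈ W := by
    have h1 : (w : K) / Y ∈ W := hdivY w (Ideal.mul_le_left hw)
    have e1 : (w : K) / w' = (w : K) / Y * (v₀ : K)⁻¹ := by
      rw [hw'K]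
      field_simp
    rw [e1]
    exact W.mul_mem _ _ h1 hvW
  have hdiv : ∀ b ∈ PI hst e s * V, (b : K) / w' ∈ W := by
    intro b hb
    have h1 : (b : K) / w ∈ W := hBW (BW_div w hb)
    have e1 : (b : K) / w' = (b : K) / w * ((w : K) / w') := by field_simp
    rw [e1]
    exact W.mul_mem _ _ h1 hww'
  -- the action on the residues of the elements of degree one
  have hres1 : ∀ b ∈ PI hst e s * V, (ρ τ (b : K)) / w' ∈ W ∧
      rs W (ρ τ (b : K) / w') = rs W ((b : K) / w') := by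
    intro b hb
    apply rs_congr (hdiv b hb)
    have h1 := hin1 b hb
    have e1 : ρ τ (b : K) / w' - (b : K) / w' =
        ((act hst τ b - b : A) : K) / w * ((w : K) / w') := by
      change _ = (ρ τ (b : K) - b) / w * ((w : K) / w')
      field_simp
    rw [e1, map_mul]
    exact mul_lt_one_of_lt_of_le h1 ((W.valuation_le_one_iff _).2 hww')
  have hAres : rs W (ρ τ (w' : K) / w') = 1 ∧ ρ τ (w' : K) / w' ∈ W := by
    obtain ⟨h1, h2⟩ := hres1 w' hw'mem
    rw [div_self hw'0, rs_one] at h2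
    exact ⟨h2, h1⟩
  obtain ⟨hτw0, hτwW⟩ := inv_mem_of_rs hAres.2 (by rw [hAres.1]; exact one_ne_zero)
  -- the elements `θ g k`
  have hτst : ∀ g ∈ s, ∀ x ∈ fixI hst g, act hst τ x ∈ fixI hst g := by
    intro g hg x hx
    have h1 := fixI_conj hst g τ (Ideal.mem_map_of_mem _ hx)
    rwa [hcomm g hg, mul_inv_cancel_right] at h1
  have hτkst : ∀ g ∈ s, ∀ (k : ℕ), ∀ x ∈ fixI hst g, act hst (τ ^ k) x ∈ fixI hst g := by
    intro g hg k
    induction k with
    | zero =>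
      intro x hx
      rw [pow_zero, act_one]
      exact hx
    | succ k ih =>
      intro x hx
      rw [pow_succ', act_mul]
      exact hτst g hg _ (ih x hx)
  obtain ⟨θ, hθ⟩ : ∃ θ : G → ℕ → K, ∀ g k, θ g k = ρ (τ ^ k) (y g : K) / y g := ⟨_, fun _ _ => rfl⟩
  have hbex : ∀ g ∈ s, ∀ k : ℕ, ∃ b ∈ PI hst e s * V, (b : K) / w' = θ g k := by
    intro g hg k
    obtain ⟨hyg, hyg0, hygW⟩ := hy g hg
    refine ⟨(act hst (τ ^ k) (y g) * y g ^ (e g - 1) * ∏ h ∈ s.erase g, y h ^ e h) * v₀,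
      Ideal.mul_mem_mul ?_ hv₀, ?_⟩
    · unfold PI
      rw [← Finset.mul_prod_erase s _ hg]
      refine Ideal.mul_mem_mul ?_ (Ideal.prod_mem_prod fun h hh =>
        Ideal.pow_mem_pow (hy h (Finset.mem_of_mem_erase hh)).1 _)
      have e1 : fixI hst g ^ e g = fixI hst g * fixI hst g ^ (e g - 1) := by
        rw [← pow_succ', Nat.sub_add_cancel (he g hg)]
      rw [e1]
      exact Ideal.mul_mem_mul (hτkst g hg k _ hyg) (Ideal.pow_mem_pow hyg _)
    · have h2 : (act hst (τ ^ k) (y g) * y g ^ (e g - 1) * ∏ h ∈ s.erase g, y h ^ e h) * y g =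
          act hst (τ ^ k) (y g) * Y := by
        rw [hYdef, ← Finset.mul_prod_erase s (fun h => y h ^ e h) hg]
        have e2 : y g ^ e g = y g ^ (e g - 1) * y g := by
          rw [← pow_succ, Nat.sub_add_cancel (he g hg)]
        change _ = act hst (τ ^ k) (y g) * (y g ^ e g * _)
        rw [e2]
        ring
      have h3 : ((act hst (τ ^ k) (y g) * y g ^ (e g - 1) * ∏ h ∈ s.erase g, y h ^ e h : A) : K) *
          y g = ρ (τ ^ k) (y g : K) * Y := congrArg Subtype.val h2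
      rw [hθ, hw'K]
      set c : K := ((act hst (τ ^ k) (y g) * y g ^ (e g - 1) * ∏ h ∈ s.erase g, y h ^ e h : A) : K)
        with hc
      change c * (v₀ : K) / ((Y : K) * v₀) = _
      have h4 : c = ρ (τ ^ k) (y g : K) * Y / y g := by
        rw [← h3]
        field_simp
      rw [h4]
      field_simp
  have hθW : ∀ g ∈ s, ∀ k : ℕ, θ g k ∈ W := by
    intro g hg k
    obtain ⟨b, hb, hbθ⟩ := hbex g hg k
    rw [← hbθ]
    exact hdiv b hb
  have hθτ : ∀ g ∈ s, ∀ k : ℕ, ρ τ (θ g k) ∈ W ∧ rs W (ρ τ (θ g k)) = rs W (θ g k) := by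
    intro g hg k
    obtain ⟨b, hb, hbθ⟩ := hbex g hg k
    obtain ⟨h1, h2⟩ := hres1 b hb
    have hρw : ρ τ (w' : K) ≠ 0 := fun h => hw'0 ((map_eq_zero _).1 h)
    have e1 : ρ τ (θ g k) = (ρ τ (b : K) / w') * (ρ τ (w' : K) / w')⁻¹ := by
      rw [← hbθ, map_div₀]
      field_simp
    have h3 : ρ τ (θ g k) ∈ W := by
      rw [e1]
      exact W.mul_mem _ _ h1 hτwW
    refine ⟨h3, ?_⟩
    have e2 : ρ τ (θ g k) * (ρ τ (w' : K) / w') = ρ τ (b : K) / w' := by
      rw [← hbθ, map_div₀]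
      field_simp
    have h4 := rs_mul h3 hAres.2
    rw [e2, hAres.1, mul_one, h2, hbθ] at h4
    exact h4.symm
  have hθsucc : ∀ g ∈ s, ∀ k : ℕ, θ g (k + 1) = ρ τ (θ g k) * θ g 1 := by
    intro g hg k
    have hyg0 := (hy g hg).2.1
    have h1 : ρ τ (y g : K) ≠ 0 := fun h => hyg0 ((map_eq_zero _).1 h)
    rw [hθ, hθ, hθ, map_div₀, pow_one, pow_succ', map_mul]
    change ρ τ (ρ (τ ^ k) (y g : K)) / y g = _
    field_simp
  have hθpow : ∀ g ∈ s, ∀ k : ℕ, rs W (θ g k) = rs W (θ g 1) ^ k := by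
    intro g hg k
    induction k with
    | zero =>
      rw [hθ, pow_zero, pow_zero, map_one]
      change rs W ((y g : K) / y g) = 1
      rw [div_self (hy g hg).2.1, rs_one]
    | succ k ih =>
      rw [hθsucc g hg k, rs_mul (hθτ g hg k).1 (hθW g hg 1), (hθτ g hg k).2, ih, pow_succ]
  have hθl : ∀ g ∈ s, rs W (θ g 1) ^ l = 1 := by
    intro g hg
    rw [← hθpow g hg l, hθ, hτl, map_one]
    change rs W ((y g : K) / y g) = 1
    rw [div_self (hy g hg).2.1, rs_one]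
  -- the product
  have hv₀res : ρ τ (v₀ : K) / v₀ ∈ W ∧ rs W (ρ τ (v₀ : K) / v₀) = 1 := by
    have h1 := rs_congr (W := W) (x := ρ τ (v₀ : K) / v₀) (y := 1) W.one_mem (by
      have e1 : ρ τ (v₀ : K) / v₀ - 1 = ((act hst τ v₀ - v₀ : A) : K) * (v₀ : K)⁻¹ := by
        change _ = (ρ τ (v₀ : K) - v₀) * (v₀ : K)⁻¹
        field_simp
      rw [e1, map_mul]
      exact mul_lt_one_of_lt_of_le (hin0 v₀) ((W.valuation_le_one_iff _).2 hvW))
    rwa [rs_one] at h1
  have hprod : rs W (∏ g ∈ s, θ g 1 ^ e g) = 1 ∧ ∏ g ∈ s, θ g 1 ^ e g ∈ W := by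
    have h1 : ∏ g ∈ s, θ g 1 ^ e g ∈ W := (rs_prod s _ fun g hg => pow_mem (hθW g hg 1) _).1
    have e1 : ρ τ (w' : K) / w' = (∏ g ∈ s, θ g 1 ^ e g) * (ρ τ (v₀ : K) / v₀) := by
      rw [hw'K, map_mul, mul_div_mul_comm]
      congr 1
      rw [hYK, map_prod, ← Finset.prod_div_distrib]
      refine Finset.prod_congr rfl fun g _ => ?_
      rw [map_pow, ← div_pow, hθ, pow_one]
    have h2 := rs_mul h1 hv₀res.1
    rw [← e1, hAres.1, hv₀res.2, mul_one] at h2
    exact ⟨h2.symm, h1⟩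
  have hθτ1 : rs W (θ τ 1) = 1 := by
    set r : Finset G := s.filter (fun g => g ∈ Subgroup.zpowers τ) with hr
    have hr' : ∀ g, g ∈ r ↔ g ∈ Subgroup.zpowers τ ∧ g ≠ 1 := by
      intro g
      rw [hr, Finset.mem_filter]
      constructor
      · rintro ⟨h1, h2⟩
        exact ⟨h2, fun h => h1s (h ▸ h1)⟩
      · rintro ⟨h1, h2⟩
        exact ⟨hτs g h1 h2, h1⟩
    have h1 := (rs_prod (W := W) s (fun g => θ g 1 ^ e g)
      fun g hg => pow_mem (hθW g hg 1) _).2
    rw [hprod.1] at h1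
    rw [← Finset.prod_filter_mul_prod_filter_not s (fun g => g ∈ Subgroup.zpowers τ)] at h1
    have h2 : ∏ g ∈ s.filter (fun g => g ∉ Subgroup.zpowers τ), rs W (θ g 1 ^ e g) = 1 := by
      refine Finset.prod_eq_one fun g hg => ?_
      rw [Finset.mem_filter] at hg
      obtain ⟨c, hc⟩ := hdvd g hg.1 hg.2
      rw [rs_pow (hθW g hg.1 1), hc, pow_mul, hθl g hg.1, one_pow]
    have h3 : ∏ g ∈ s.filter (fun g => g ∈ Subgroup.zpowers τ), rs W (θ g 1 ^ e g) =
        rs W (θ τ 1) ^ ∑ g ∈ r, e g := by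
      rw [← Finset.prod_pow_eq_pow_sum]
      refine Finset.prod_congr rfl fun g hg => ?_
      rw [Finset.mem_filter] at hg
      have h4 : θ g 1 = θ τ 1 := by
        rw [hθ, hθ, hyτ' g hg.2, hyτ' τ (Subgroup.mem_zpowers τ)]
      rw [rs_pow (hθW g hg.1 1), h4]
    rw [h2, h3, mul_one] at h1
    have h5 : orderOf (rs W (θ τ 1)) ∣ l := orderOf_dvd_of_pow_eq_one (hθl τ hτmem)
    have h6 : orderOf (rs W (θ τ 1)) ∣ ∑ g ∈ r, e g := orderOf_dvd_of_pow_eq_one h1.symm
    have h7 : orderOf (rs W (θ τ 1)) ∣ 1 := by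
      have h8 := Nat.dvd_gcd h5 h6
      rwa [(hcop r hr').gcd_eq_one] at h8
    exact orderOf_eq_one_iff.1 (Nat.dvd_one.1 h7)
  -- the trace
  have htel : ∀ n : ℕ, ∑ k ∈ Finset.range n, ρ (τ ^ k) (yτ : K) = ρ (τ ^ n) (a₀ : K) - a₀ := by
    intro n
    induction n with
    | zero =>
      rw [Finset.sum_range_zero, pow_zero, map_one]
      exact (sub_self _).symm
    | succ n ih =>
      rw [Finset.sum_range_succ, ih]
      have h1 : ρ (τ ^ n) (yτ : K) = ρ (τ ^ (n + 1)) (a₀ : K) - ρ (τ ^ n) (a₀ : K) := by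
        change ρ (τ ^ n) (ρ τ (a₀ : K) - a₀) = _
        rw [map_sub, pow_succ, map_mul]
        rfl
      rw [h1]
      ring
  have hsum0 : ∑ k ∈ Finset.range l, θ τ k = 0 := by
    have h1 : ∑ k ∈ Finset.range l, θ τ k = (∑ k ∈ Finset.range l, ρ (τ ^ k) (yτ : K)) / yτ := by
      rw [Finset.sum_div]
      refine Finset.sum_congr rfl fun k _ => ?_
      rw [hθ, hyτ' τ (Subgroup.mem_zpowers τ)]
    rw [h1, htel, hτl, map_one]
    change ((a₀ : K) - a₀) / yτ = 0
    rw [sub_self, zero_div]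
  have h1 := (rs_sum (W := W) (Finset.range l) (fun k => θ τ k) fun k _ => hθW τ hτmem k).2
  rw [hsum0] at h1
  have h2 : ∀ k ∈ Finset.range l, rs W (θ τ k) = 1 := by
    intro k _
    rw [hθpow τ hτmem k, hθτ1, one_pow]
  rw [Finset.sum_congr rfl h2, Finset.sum_const, Finset.card_range, nsmul_eq_mul, mul_one] at h1
  have h3 : rs W (0 : K) = 0 := by
    rw [rs_eq W.zero_mem]
    exact map_zero (residue W)
  rw [h3] at h1
  have hlmem : (l : K) ∈ W := natCast_mem W l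
  have h4 : rs W (l : K) = (l : ResidueField W) := by
    rw [rs_eq hlmem]
    have e1 : (⟨(l : K), hlmem⟩ : W) = (l : W) := Subtype.ext (by push_cast; rfl)
    rw [e1, map_natCast]
  rw [← h4] at h1
  have h5 := rs_zero_of hlmem h1.symm
  have h6 : W.valuation (l : K) * W.valuation (l : K)⁻¹ = 1 := by
    rw [← map_mul, mul_inv_cancel₀ hl0, map_one]
  have h7 := mul_lt_one_of_lt_of_le h5 ((W.valuation_le_one_iff _).2 hlW)
  rw [h6] at h7
  exact lt_irrefl _ h7

end tame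

end Pool.Agent.N864.GR
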