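import Pool.Agent.N864.GR.Res

/-!
# The inertia groups outside of the vertex, and the quotient
-/

set_option autoImplicit false
set_option linter.unusedSectionVars false
set_option linter.unusedVariables false

namespace Pool.Agent.N864.GR

open IsLocalRing Pool.Agent.TH188.QS Pool.Agent.TH188.ARC Pool.Agent.W418.LU2
  Pool.Agent.Y223.G Pool.Agent.Y223.INV Pool.Agent.N864.GQ

variable {O K G : Type} [CommRing O] [Field K] [Algebra O K] [Group G]
  {ρ : G →* (K ≃ₐ[O] K)} {A : Subalgebra O K}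

section fin

variable [Fintype G] (hst : ∀ g, ∀ a ∈ A, ρ g a ∈ A) {W : ValuationSubring K}

/-- The fixed points outside of the vertex. -/
theorem fix_cond2 [IsNoetherianRing O] [hft : Algebra.FiniteType O A] {𝔞 V : Ideal A} {m : ℕ}
    {p : ℕ} {τ : G} {μ : A} (hμ0 : (μ : K) ≠ 0) (hμW : (μ : K)⁻¹ ∈ W)
    (hμ1 : ∀ x ∈ 𝔞, μ * x ∈ fixI hst τ ^ m * V) (hμ2 : ∀ x ∈ fixI hst τ ^ m * V, μ * x ∈ 𝔞)
    (h𝔞st : ∀ x ∈ 𝔞, act hst τ x ∈ 𝔞)
    (hm1 : 1 ≤ m) (hpm : p ∣ m) {v₀ : A} (hv₀ : v₀ ∈ V) (hv0 : (v₀ : K) ≠ 0)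
    (hvW : (v₀ : K)⁻¹ ∈ W) {Q : Ideal (RI 𝔞)} (hQ : Q.IsPrime) {w : A} (hw : w ∈ 𝔞)
    (hwQ : (⟨_, hm_one_RI hw⟩ : RI 𝔞) ∉ Q)
    (hBW : (BW (𝔞) w).toSubring ≤ W.toSubring)
    (hW0 : ∀ a : A, (⟨_, b_RI a⟩ : RI 𝔞) ∈ Q ↔ W.valuation (a : K) < 1)
    (hW1 : ∀ (y : A) (hy : y ∈ 𝔞), (⟨_, hm_one_RI hy⟩ : RI 𝔞) ∈ Q →
      W.valuation ((y : K) / w) < 1)
    (hp : p.Prime) (hτ : τ ^ p = 1) (hτ1 : τ ≠ 1)
    (hfa : fixI hst τ ≠ ⊥)
    (hF : Fx (ρ τ) W (lo W.toSubring A.toSubring))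
    (hsc : ∃ u, ∀ x ∈ fixR (qact hF), qact hF x - u * x ∈ fixR (qact hF) ^ 2) :
    ∃ b ∈ RI 𝔞, ∀ c ∈ RI 𝔞, ∃ (s : LP K) (hs : s ∈ RI 𝔞),
      (⟨s, hs⟩ : RI 𝔞) ∉ Q ∧
        ∃ u ∈ RI 𝔞, s * (tl (ρ τ) c - c) = u * (tl (ρ τ) b - b) := by
  classical
  have hAW : A.toSubring ≤ W.toSubring := fun a ha => hBW (BW_A w ha)
  have hN : IsNoetherianRing A := Algebra.FiniteType.isNoetherianRing O A
  have hw0 : (w : K) ≠ 0 := by
    intro h
    apply hwQ
    have e : (⟨hm 1 (w : K), hm_one_RI hw⟩ : RI 𝔞) = 0 := by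
      apply Subtype.ext
      change hm 1 (w : K) = 0
      rw [h, hm_zero]
    rw [e]
    exact Q.zero_mem
  set L := fixI hst τ with hL
  -- the generator with the greatest value
  obtain ⟨a₀, ha0, ha₀⟩ : ∃ a₀ : A, ((act hst τ a₀ - a₀ : A) : K) ≠ 0 ∧
      ∀ l ∈ L, (l : K) / ((act hst τ a₀ - a₀ : A) : K) ∈ W := by
    obtain ⟨T, hT, hTs⟩ := Submodule.fg_span_iff_fg_span_finset_subset
      {x : A | ∃ a : A, x = act hst τ a - a} |>.1 (IsNoetherian.noetherian (fixI hst τ))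
    have hTne : T.Nonempty := by
      by_contra hcon
      rw [Finset.not_nonempty_iff_eq_empty] at hcon
      apply hfa
      change Submodule.span A _ = ⊥
      rw [hTs, hcon, Finset.coe_empty, Submodule.span_empty]
    obtain ⟨x, hxT, hx⟩ := T.exists_max_image (fun x : A => W.valuation (x : K)) hTne
    obtain ⟨a₀, rfl⟩ := hT hxT
    have hx0 : ((act hst τ a₀ - a₀ : A) : K) ≠ 0 := by
      intro h0
      apply hfa
      rw [eq_bot_iff]
      change Submodule.span A _ ≤ _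
      rw [hTs, Submodule.span_le]
      intro y hy
      have h1 := hx y hy
      rw [h0, map_zero] at h1
      have h2 : W.valuation (y : K) = 0 := le_antisymm h1 zero_le
      rw [map_eq_zero] at h2
      exact (Submodule.mem_bot A).2 (Subtype.ext h2)
    refine ⟨a₀, hx0, ?_⟩
    intro l hl
    have hl' : l ∈ Submodule.span A (T : Set A) := by rw [← hTs]; exact hl
    clear hl
    induction hl' using Submodule.span_induction with
    | mem y hy =>
      rw [← W.valuation_le_one_iff, map_div₀]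
      exact div_le_one_of_le₀ (hx y hy) zero_le
    | zero =>
      rw [ZeroMemClass.coe_zero, zero_div]
      exact W.zero_mem
    | add a b _ _ ha hb =>
      rw [AddMemClass.coe_add, add_div]
      exact W.add_mem _ _ ha hb
    | smul r a _ ha =>
      have : ((r • a : A) : K) / ((act hst τ a₀ - a₀ : A) : K) =
          (r : K) * ((a : K) / ((act hst τ a₀ - a₀ : A) : K)) := mul_div_assoc _ _ _
      rw [this]
      exact W.mul_mem _ _ (hAW r.2) ha
  set y : A := act hst τ a₀ - a₀ with hy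
  have hyL : y ∈ L := fixI_mem hst τ a₀
  -- the element of degree one
  have hx𝔞 : μ * (y ^ m * v₀) ∈ 𝔞 :=
    hμ2 _ (Ideal.mul_mem_mul (Ideal.pow_mem_pow hyL m) hv₀)
  have hdiv : ∀ (k : ℕ), ∀ l ∈ L ^ k, (l : K) / (y : K) ^ k ∈ W := by
    intro k
    induction k with
    | zero =>
      intro l _
      rw [pow_zero, div_one]
      exact hAW l.2
    | succ k ih =>
      intro l hl
      rw [pow_succ] at hl
      induction hl using Submodule.mul_induction_on' with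
      | mem_mul_mem x hx z hz =>
        have e : ((x * z : A) : K) / (y : K) ^ (k + 1) =
            ((x : K) / (y : K) ^ k) * ((z : K) / (y : K)) := by
          rw [pow_succ, ← mul_div_mul_comm]
          rfl
        rw [e]
        exact W.mul_mem _ _ (ih x hx) (ha₀ z hz)
      | add x _ z _ hx hz =>
        have e : ((x + z : A) : K) / (y : K) ^ (k + 1) =
            (x : K) / (y : K) ^ (k + 1) + (z : K) / (y : K) ^ (k + 1) := by
          rw [← add_div]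
          rfl
        rw [e]
        exact W.add_mem _ _ hx hz
  have hxQ : (⟨_, hm_one_RI hx𝔞⟩ : RI 𝔞) ∉ Q := by
    intro h
    have h1 := hW1 _ hx𝔞 h
    have hwL : μ * w ∈ L ^ m := Ideal.mul_le_left (hμ1 w hw)
    have h2 : (((μ * w : A) : K) / (y : K) ^ m) * (v₀ : K)⁻¹ * (μ : K)⁻¹ * (μ : K)⁻¹ ∈ W :=
      W.mul_mem _ _ (W.mul_mem _ _ (W.mul_mem _ _ (hdiv m _ hwL) hvW) hμW) hμW
    have h3 : W.valuation ((((μ * w : A) : K) / (y : K) ^ m) * (v₀ : K)⁻¹ * (μ : K)⁻¹ *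
        (μ : K)⁻¹) ≤ 1 := (W.valuation_le_one_iff _).2 h2
    have h4 : W.valuation (((μ * (y ^ m * v₀) : A) : K) / w) *
        W.valuation ((((μ * w : A) : K) / (y : K) ^ m) * (v₀ : K)⁻¹ * (μ : K)⁻¹ *
          (μ : K)⁻¹) = 1 := by
      rw [← map_mul]
      have e : ((μ * (y ^ m * v₀) : A) : K) / w * ((((μ * w : A) : K) / (y : K) ^ m) *
          (v₀ : K)⁻¹ * (μ : K)⁻¹ * (μ : K)⁻¹) = 1 := by
        change (μ : K) * ((y : K) ^ m * (v₀ : K)) / w *
          (((μ : K) * w / (y : K) ^ m) * (v₀ : K)⁻¹ * (μ : K)⁻¹ * (μ : K)⁻¹) = 1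
        have := pow_ne_zero m ha0
        field_simp
      rw [e, map_one]
    have h5 := mul_lt_one_of_lt_of_le h1 h3
    rw [h4] at h5
    exact lt_irrefl _ h5
  set x : LP K := hm 1 ((μ * (y ^ m * v₀) : A) : K) with hx
  have hxR : x ∈ RI 𝔞 := hm_one_RI hx𝔞
  -- the key property
  have hkey : ∀ l ∈ L, ∃ u ∈ RI 𝔞, x * hm 0 (l : K) = u * hm 0 (y : K) := by
    intro l hl
    have h1 : μ * (y ^ (m - 1) * v₀ * l) ∈ 𝔞 := by
      refine hμ2 _ ?_
      have e : y ^ (m - 1) * v₀ * l = (y ^ (m - 1) * l) * v₀ := by ring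
      rw [e]
      refine Ideal.mul_mem_mul ?_ hv₀
      have e2 : L ^ m = L ^ (m - 1) * L := by rw [← pow_succ, Nat.sub_add_cancel hm1]
      rw [e2]
      exact Ideal.mul_mem_mul (Ideal.pow_mem_pow hyL _) hl
    refine ⟨_, hm_one_RI h1, ?_⟩
    rw [hx, hm_mul, hm_mul]
    congr 1
    change (μ : K) * ((y : K) ^ m * (v₀ : K)) * l = (μ : K) * ((y : K) ^ (m - 1) * (v₀ : K) * l) * y
    have e : (y : K) ^ m = (y : K) ^ (m - 1) * y := by rw [← pow_succ, Nat.sub_add_cancel hm1]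
    rw [e]
    ring
  have hkey2 : ∀ f ∈ L * 𝔞, ∃ u ∈ RI 𝔞, x * hm 1 (f : K) = u * hm 0 (y : K) := by
    intro f hf
    induction hf using Submodule.mul_induction_on' with
    | mem_mul_mem l hl a ha =>
      obtain ⟨u, hu, hu'⟩ := hkey l hl
      refine ⟨u * hm 1 (a : K), Subalgebra.mul_mem _ hu (hm_one_RI ha), ?_⟩
      have e : hm 1 ((l * a : A) : K) = hm 0 (l : K) * hm 1 (a : K) := by
        rw [hm_mul, zero_add]
        rfl
      rw [e, ← mul_assoc, hu']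
      ring
    | add a _ b _ ha hb =>
      obtain ⟨u, hu, hu'⟩ := ha
      obtain ⟨u', hu1, hu1'⟩ := hb
      refine ⟨u + u', Subalgebra.add_mem _ hu hu1, ?_⟩
      rw [AddMemClass.coe_add, hm_add, mul_add, hu', hu1', add_mul]
  have hone : (1 : RI 𝔞) ∉ Q := fun h => hQ.ne_top ((Ideal.eq_top_iff_one _).2 h)
  have hstR : ∀ f ∈ RI 𝔞, tl (ρ τ) f ∈ RI 𝔞 := by
    refine RI_induction ?_ ?_ ?_ ?_ ?_
    · intro b
      rw [tlhm]
      exact b_RI (act hst τ b)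
    · rw [tlhm, map_one]
      exact s_RI
    · intro a ha
      rw [tlhm]
      exact hm_one_RI (h𝔞st a ha)
    · intro f _ g _ hf hg
      rw [map_add]
      exact Subalgebra.add_mem _ hf hg
    · intro f _ g _ hf hg
      rw [map_mul]
      exact Subalgebra.mul_mem _ hf hg
  refine ⟨hm 0 (a₀ : K), b_RI a₀, ?_⟩
  have hb : tl (ρ τ) (hm 0 (a₀ : K)) - hm 0 (a₀ : K) = hm 0 (y : K) := by
    rw [tlhm, ← hm_sub]
    rfl
  rw [hb]
  refine RI_induction ?_ ?_ ?_ ?_ ?_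
  · intro a
    obtain ⟨u, hu, hu'⟩ := hkey _ (fixI_mem hst τ a)
    refine ⟨x, hxR, hxQ, u, hu, ?_⟩
    rw [← hu', tlhm, ← hm_sub]
    rfl
  · refine ⟨1, Subalgebra.one_mem _, hone, 0, Subalgebra.zero_mem _, ?_⟩
    rw [tlhm, map_one, sub_self, mul_zero, zero_mul]
  · intro a ha
    obtain ⟨s₀, hs₀0, hs₀W, hs₀⟩ := claimS hst hAW hF hτ hsc hpm hv₀ hv0 hvW _ (hμ1 a ha)
    obtain ⟨hτμ0, hτμW⟩ := unit_of_sub (hAW μ.2) hμ0 hμW (hAW (hst τ _ μ.2))
      (hF _ (le_lo _ _ μ.2)).2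
    obtain ⟨s, hsdef⟩ : ∃ s : A, s = μ * s₀ * act hst τ μ := ⟨_, rfl⟩
    have hsK : (s : K) = μ * s₀ * ρ τ (μ : K) := by rw [hsdef]; rfl
    have hs0 : (s : K) ≠ 0 := by
      rw [hsK]
      exact mul_ne_zero (mul_ne_zero hμ0 hs₀0) hτμ0
    have hsW : (s : K)⁻¹ ∈ W := by
      rw [hsK, mul_inv, mul_inv]
      exact W.mul_mem _ _ (W.mul_mem _ _ hμW hs₀W) hτμW
    have hs : s * (act hst τ a - a) ∈ L * 𝔞 := by
      have hL𝔟 : ∀ f ∈ L * (L ^ m * V), μ * f ∈ L * 𝔞 := by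
        intro f hf
        induction hf using Submodule.mul_induction_on' with
        | mem_mul_mem l hl b hb =>
          have e : μ * (l * b) = l * (μ * b) := by ring
          rw [e]
          exact Ideal.mul_mem_mul hl (hμ2 b hb)
        | add c _ d _ hc hd =>
          rw [mul_add]
          exact Ideal.add_mem _ hc hd
      have h1 : (act hst τ μ - μ) * a ∈ L * 𝔞 := Ideal.mul_mem_mul (fixI_mem hst τ μ) ha
      have e : s * (act hst τ a - a) = μ * (s₀ * (act hst τ (μ * a) - μ * a)) -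
          (μ * s₀) * ((act hst τ μ - μ) * a) := by
        rw [hsdef, map_mul]
        ring
      rw [e]
      exact Ideal.sub_mem _ (hL𝔟 _ hs₀) (Ideal.mul_mem_left _ _ h1)
    obtain ⟨u, hu, hu'⟩ := hkey2 _ hs
    refine ⟨x * hm 0 (s : K), Subalgebra.mul_mem _ hxR (b_RI s), ?_, u, hu, ?_⟩
    · intro h
      have h1 : (⟨x, hxR⟩ : RI 𝔞) * ⟨hm 0 (s : K), b_RI s⟩ ∈ Q := h
      rcases hQ.mem_or_mem h1 with h2 | h2
      · exact hxQ h2
      · rw [hW0, ← nu_iff (hAW s.2)] at h2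
        exact h2 ⟨hs0, hsW⟩
    · rw [← hu', tlhm, ← hm_sub, mul_assoc, hm_mul, zero_add]
      rfl
  · rintro f hf g hg ⟨s, hs, hsQ, u, hu, h1⟩ ⟨s', hs', hsQ', u', hu', h1'⟩
    refine ⟨s * s', Subalgebra.mul_mem _ hs hs', ?_, s' * u + s * u',
      Subalgebra.add_mem _ (Subalgebra.mul_mem _ hs' hu) (Subalgebra.mul_mem _ hs hu'), ?_⟩
    · intro h
      have h2 : (⟨s, hs⟩ : RI 𝔞) * ⟨s', hs'⟩ ∈ Q := h
      rcases hQ.mem_or_mem h2 with h3 | h3
      · exact hsQ h3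
      · exact hsQ' h3
    · rw [map_add]
      linear_combination s' * h1 + s * h1'
  · rintro f hf g hg ⟨s, hs, hsQ, u, hu, h1⟩ ⟨s', hs', hsQ', u', hu', h1'⟩
    refine ⟨s * s', Subalgebra.mul_mem _ hs hs', ?_, s' * u * tl (ρ τ) g + s * u' * f,
      Subalgebra.add_mem _ (Subalgebra.mul_mem _ (Subalgebra.mul_mem _ hs' hu) (hstR g hg))
        (Subalgebra.mul_mem _ (Subalgebra.mul_mem _ hs hu') hf), ?_⟩
    · intro h
      have h2 : (⟨s, hs⟩ : RI 𝔞) * ⟨s', hs'⟩ ∈ Q := h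
      rcases hQ.mem_or_mem h2 with h3 | h3
      · exact hsQ h3
      · exact hsQ' h3
    · rw [map_mul]
      linear_combination (s' * tl (ρ τ) g) * h1 + (s * f) * h1'


end fin

end Pool.Agent.N864.GR
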