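import Pool.Agent.N864.GR.Ext

/-!
# Blowing up a product of regular centres closed under intersections
-/

set_option autoImplicit false
set_option linter.unusedSectionVars false
set_option linter.unusedVariables false

namespace Pool.Agent.N864.GR

open IsLocalRing Pool.Agent.Y223.G Pool.Agent.TH188.QS Pool.Agent.W418.LU2 Pool.Agent.TH188.ARC
  Pool.Agent.Y223.INV Pool.Agent.N864.GQ

variable {K : Type} [Field K] {W : ValuationSubring K} {Q : Subring K}

/-- The set `S` generates the unit ideal or an ideal with a regular quotient. -/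
def Rg (W : ValuationSubring K) (Q : Subring K) (S : Set K) : Prop :=
  ∃ (c : ℕ) (z : Fin c → K), RegP W.toSubring Q z ∧
    Submodule.span Q S = Submodule.span Q (Set.range z)

lemma div_of_span {T : Subring K} (hQT : Q ≤ T) {S : Set K} {y : K} (h : ∀ g ∈ S, g / y ∈ T)
    {x : K} (hx : x ∈ Submodule.span Q S) : x / y ∈ T := by
  induction hx using Submodule.span_induction with
  | mem x hx => exact h x hx
  | zero => rw [zero_div]; exact T.zero_mem
  | add a b _ _ ha hb => rw [add_div]; exact T.add_mem ha hb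
  | smul r a _ ha =>
    rw [Subring.smul_def, smul_eq_mul, mul_div_assoc]
    exact T.mul_mem (hQT r.2) ha

lemma span_div {T : Subring K} (hQT : Q ≤ T) {S S' : Set K}
    (h : Submodule.span Q S ≤ Submodule.span Q S') (y : K) :
    Submodule.span T ((fun x => x / y) '' S) ≤ Submodule.span T ((fun x => x / y) '' S') := by
  rw [Submodule.span_le]
  rintro _ ⟨s, hs, rfl⟩
  have h1 := h (Submodule.subset_span hs)
  change s / y ∈ _
  generalize s = x at h1
  induction h1 using Submodule.span_induction with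
  | mem x hx => exact Submodule.subset_span ⟨x, hx, rfl⟩
  | zero => rw [zero_div]; exact Submodule.zero_mem _
  | add a b _ _ ha hb => rw [add_div]; exact Submodule.add_mem _ ha hb
  | smul r a _ ha =>
    have e : r • a / y = (⟨(r : K), hQT r.2⟩ : T) • (a / y) := by
      rw [Subring.smul_def, Subring.smul_def, smul_eq_mul, smul_eq_mul, mul_div_assoc]
    rw [e]
    exact Submodule.smul_mem _ _ ha

lemma span_div_mem {T : Subring K} (hQT : Q ≤ T) {S : Set K} {x : K}
    (hx : x ∈ Submodule.span Q S) (y : K) :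
    x / y ∈ Submodule.span T ((fun x => x / y) '' S) := by
  have h1 : Submodule.span Q {x} ≤ Submodule.span Q S := by
    rw [Submodule.span_le]
    rintro _ rfl
    exact hx
  exact span_div hQT h1 y (Submodule.subset_span ⟨x, rfl, rfl⟩)

lemma nu_span (hQW : Q ≤ W.toSubring) {S : Set K} (hSW : ∀ g ∈ S, g ∈ W)
    (h : ∀ g ∈ S, NU W.toSubring g) {x : K} (hx : x ∈ Submodule.span Q S) :
    x ∈ W ∧ NU W.toSubring x := by
  induction hx using Submodule.span_induction with
  | mem x hx => exact ⟨hSW x hx, h x hx⟩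
  | zero => exact ⟨W.zero_mem, fun h => h.1 rfl⟩
  | add a b _ _ ha hb =>
    refine ⟨W.add_mem _ _ ha.1 hb.1, ?_⟩
    rw [nu_iff (W.add_mem _ _ ha.1 hb.1)]
    exact Valuation.map_add_lt _ ((nu_iff ha.1).1 ha.2) ((nu_iff hb.1).1 hb.2)
  | smul r a _ ha =>
    have h1 : r • a = (r : K) * a := rfl
    have h2 : (r : K) * a ∈ W := W.mul_mem _ _ (hQW r.2) ha.1
    rw [h1]
    refine ⟨h2, ?_⟩
    rw [nu_iff h2, map_mul, mul_comm]
    exact mul_lt_one_of_lt_of_le ((nu_iff ha.1).1 ha.2)
      ((W.valuation_le_one_iff _).2 (hQW r.2))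

lemma span_sub {S : Set K} (hS : Rg W Q S) {x : K} (hx : x ∈ Submodule.span Q S) : x ∈ Q := by
  obtain ⟨c, z, hz, h⟩ := hS
  rw [h] at hx
  have h1 : x / 1 ∈ Q := div_of_span le_rfl (S := Set.range z) (y := 1) (by
    rintro _ ⟨i, rfl⟩
    rw [div_one]
    exact hz.mem i) hx
  rwa [div_one] at h1

/-- The transform of a centre which contains the centre of the blowing up. -/
theorem rg_step {S S₀ : Set K} (hS : Rg W Q S) (hSp : ∀ g ∈ S, NU W.toSubring g)
    (hne : ∃ g ∈ S, g ≠ 0) {c : ℕ} {z : Fin c → K} (hz : RegP W.toSubring Q z)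
    (h₀ : Submodule.span Q S₀ = Submodule.span Q (Set.range z))
    (h₀p : ∀ g ∈ S₀, NU W.toSubring g)
    (hle : Submodule.span Q S ≤ Submodule.span Q S₀) (j : Fin c) (hj : ∀ i, z i / z j ∈ W)
    {E : Subring K} (hQE : Q ≤ E) (hEW : E ≤ W.toSubring)
    (hEIC : IC W.toSubring E) (hzE : ∀ i, z i / z j ∈ E)
    (hEmin : ∀ S : Subring K, Q ≤ S → IC W.toSubring S → (∀ i, z i / z j ∈ S) → E ≤ S) :
    Rg W E ((fun x => x / z j) '' S) := by
  classical
  have hQW : Q ≤ W.toSubring := hz.PA
  have hIC : IC W.toSubring Q := hz.inv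
  have hreg : IsRegularLocalRing Q := hz.reg
  have hloc : IsLocalRing Q := hreg.toIsLocalRing
  have hzj0 : z j ≠ 0 := hz.ne j
  have hS0 : Rg W Q S₀ := ⟨c, z, hz, h₀⟩
  obtain ⟨a, z', hz', hSz'⟩ := hS
  have hmax : ∀ y : Q, y ∈ maximalIdeal Q ↔ NU W.toSubring (y : K) := mem_max_iff hQW hIC
  have hSQ : ∀ g ∈ S, g ∈ Q := fun g hg => span_sub ⟨a, z', hz', hSz'⟩ (Submodule.subset_span hg)
  have hS₀Q : ∀ g ∈ S₀, g ∈ Q := fun g hg => span_sub hS0 (Submodule.subset_span hg)
  -- the parameters are not units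
  have hzm : ∀ i, (⟨z i, hz.mem i⟩ : Q) ∈ maximalIdeal Q := by
    intro i
    rw [hmax]
    refine (nu_span hQW (fun g hg => hQW (hS₀Q g hg)) h₀p ?_).2
    rw [h₀]
    exact Submodule.subset_span ⟨i, rfl⟩
  have hz'm : ∀ i, (⟨z' i, hz'.mem i⟩ : Q) ∈ maximalIdeal Q := by
    intro i
    rw [hmax]
    refine (nu_span hQW (fun g hg => hQW (hSQ g hg)) hSp ?_).2
    rw [hSz']
    exact Submodule.subset_span ⟨i, rfl⟩
  have hzI : Ind (fun i => (⟨z i, hz.mem i⟩ : Q)) := hz.ind.ind id Function.injective_id hzm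
  have hz'I : Ind (fun i => (⟨z' i, hz'.mem i⟩ : Q)) := hz'.ind.ind id Function.injective_id hz'm
  set J : Ideal Q := Ideal.span (Set.range fun i => (⟨z i, hz.mem i⟩ : Q)) with hJdef
  have hJm : J ≤ maximalIdeal Q := by
    rw [hJdef, Ideal.span_le]
    rintro _ ⟨i, rfl⟩
    exact hzm i
  have hJ : ∀ a ∈ J, a ∈ maximalIdeal Q ^ 2 → a ∈ maximalIdeal Q • J := by
    intro x hx hx2
    rw [hJdef, Ideal.mem_span_range_iff_exists_fun] at hx
    obtain ⟨r, rfl⟩ := hx
    have h1 := hzI.2 r hx2
    exact Submodule.sum_mem _ fun i _ => Submodule.smul_mem_smul (h1 i)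
      (Ideal.subset_span ⟨i, rfl⟩)
  -- ideals and submodules
  have hconv : ∀ {ι : Type} [Fintype ι] (u : ι → Q) (x : Q), x ∈ Ideal.span (Set.range u) ↔
      (x : K) ∈ Submodule.span Q (Set.range fun i => (u i : K)) := by
    intro ι _ u x
    rw [Ideal.mem_span_range_iff_exists_fun, Submodule.mem_span_range_iff_exists_fun]
    refine exists_congr fun r => ?_
    constructor
    · intro h
      rw [← h, AddSubmonoidClass.coe_finsetSum]
      rfl
    · intro h
      apply Subtype.ext
      rw [← h, AddSubmonoidClass.coe_finsetSum]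
      rfl
  have hz'J : ∀ i, (⟨z' i, hz'.mem i⟩ : Q) ∈ J := by
    intro i
    rw [hJdef, hconv]
    change z' i ∈ Submodule.span Q (Set.range z)
    rw [← h₀]
    refine hle ?_
    rw [hSz']
    exact Submodule.subset_span ⟨i, rfl⟩
  obtain ⟨b, y, hxI, hJx⟩ := ind_ext J hJm hJ _ hz'J hz'I
  set x : Fin a ⊕ Fin b → Q := Sum.elim (fun i => (⟨z' i, hz'.mem i⟩ : Q)) y with hxdef
  have hxP : RegP W.toSubring Q (fun k => (x k : K)) := regP_ind' hQW hIC hreg hxI
  have hspan : Submodule.span Q (Set.range z) = Submodule.span Q (Set.range fun k => (x k : K)) := by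
    apply le_antisymm
    · rw [Submodule.span_le]
      rintro _ ⟨i, rfl⟩
      have h1 : (⟨z i, hz.mem i⟩ : Q) ∈ J := Ideal.subset_span ⟨i, rfl⟩
      rw [hJx, hconv] at h1
      exact h1
    · rw [Submodule.span_le]
      rintro _ ⟨k, rfl⟩
      have h1 : x k ∈ J := by
        rw [hJx]
        exact Ideal.subset_span ⟨k, rfl⟩
      rw [hJdef, hconv] at h1
      exact h1
  -- the greatest value
  have hK : Nonempty (Fin a ⊕ Fin b) := by
    by_contra hcon
    rw [not_nonempty_iff] at hcon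
    have h1 : z j ∈ Submodule.span Q (Set.range fun k => (x k : K)) := by
      rw [← hspan]
      exact Submodule.subset_span ⟨j, rfl⟩
    have h3 : (Set.range fun k => (x k : K)) = ∅ := Set.range_eq_empty _
    rw [h3, Submodule.span_empty, Submodule.mem_bot] at h1
    exact hzj0 h1
  obtain ⟨k, hk⟩ := Finite.exists_max (fun i => W.valuation (x i : K))
  have hxk0 : (x k : K) ≠ 0 := hxP.ne k
  have hxkW : ∀ i, (x i : K) / x k ∈ W := by
    intro i
    rw [← W.valuation_le_one_iff, map_div₀]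
    exact div_le_one_of_le₀ (hk i) zero_le
  have hxkn : ((x k : Q) : K)⁻¹ ∉ W := by
    intro h
    have h1 := (hmax (x k)).1 (hxI.1 k)
    exact h1 ⟨hxk0, h⟩
  have hs : ∀ i ∈ Finset.univ.erase k, i ≠ k ∧ ((x i : Q) : K)⁻¹ ∉ W.toSubring ∧
      (x i : K) * (x k : K)⁻¹ ∈ W.toSubring := by
    intro i hi
    refine ⟨(Finset.mem_erase.1 hi).1, fun h => ?_, ?_⟩
    · exact (hmax (x i)).1 (hxI.1 i) ⟨hxP.ne i, h⟩
    · have h1 := hxkW i
      rwa [div_eq_mul_inv] at h1
  have hE2 := regP_qt (loc_V W) hxP k hxkn (Finset.univ.erase k) hs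
  set C := Subring.closure ((Q : Set K) ∪
    {t | ∃ i ∈ Finset.univ.erase k, t = (x i : K) * (x k : K)⁻¹}) with hC
  have hzx : ∀ i, (z i : K) / x k ∈ lo W.toSubring C := by
    intro i
    refine div_of_span (S := Set.range fun k => (x k : K))
      (fun q hq => le_lo _ _ (Subring.subset_closure (Or.inl hq))) ?_ (by
        rw [← hspan]
        exact Submodule.subset_span ⟨i, rfl⟩)
    rintro _ ⟨l, rfl⟩
    by_cases hlk : l = k
    · rw [hlk, div_self hxk0]
      exact Subring.one_mem _
    · rw [div_eq_mul_inv]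
      exact le_lo _ _ (Subring.subset_closure (Or.inr ⟨l, Finset.mem_erase.2
        ⟨hlk, Finset.mem_univ _⟩, rfl⟩))
  have hCW : C ≤ W.toSubring := by
    rw [hC, Subring.closure_le]
    rintro t (ht | ⟨i, hi, rfl⟩)
    · exact hQW ht
    · exact (hs i hi).2.2
  have hxE : ∀ i, (x i : K) / z j ∈ E := by
    intro i
    refine div_of_span (S := Set.range z) hQE ?_ (by
      rw [hspan]
      exact Submodule.subset_span ⟨i, rfl⟩)
    rintro _ ⟨l, rfl⟩
    exact hzE l
  have hzkW : z j / (x k : K) ∈ W := lo_le hCW (hzx j)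
  have hu0 : (x k : K) / z j ≠ 0 := div_ne_zero hxk0 hzj0
  have huE : z j / (x k : K) ∈ E := by
    rw [← inv_div]
    refine hEIC _ (hxE k) hu0 ?_
    rw [inv_div]
    exact hzkW
  have hE12 : lo W.toSubring C = E := by
    apply le_antisymm
    · have h1 : C ≤ E := by
        rw [hC, Subring.closure_le]
        rintro t (ht | ⟨i, hi, rfl⟩)
        · exact hQE ht
        · have e : (x i : K) * (x k : K)⁻¹ = ((x i : K) / z j) * (z j / (x k : K)) := by
            field_simp
          rw [e]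
          exact E.mul_mem (hxE i) huE
      have h2 := lo_mono (A := W.toSubring) h1
      rwa [hEIC.lo_eq] at h2
    · refine hEmin _ (fun q hq => le_lo _ _ (Subring.subset_closure (Or.inl hq))) (ic_lo hCW) ?_
      intro i
      have h1 : (z j / (x k : K))⁻¹ ∈ lo W.toSubring C := by
        refine ic_lo hCW _ (hzx j) (div_ne_zero hzj0 hxk0) ?_
        rw [inv_div]
        exact hEW (hxE k)
      have e : z i / z j = (z i / (x k : K)) * (z j / (x k : K))⁻¹ := by
        field_simp
      rw [e]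
      exact Subring.mul_mem _ (hzx i) h1
  rw [hE12] at hE2
  -- the transform
  have hspanE : Submodule.span E ((fun x => x / z j) '' S) =
      Submodule.span E ((fun x => x / z j) '' Set.range z') :=
    le_antisymm (span_div hQE hSz'.le _) (span_div hQE hSz'.ge _)
  have hz'x : ∀ i, z' i = (x (Sum.inl i) : K) := fun i => rfl
  rcases k with k | k
  · refine ⟨1, fun _ => 1, regP_unit hEW hEIC hE2.reg E.one_mem one_ne_zero
      (by rw [inv_one]; exact W.one_mem), ?_⟩
    rw [hspanE]
    apply le_antisymm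
    · rw [Submodule.span_le]
      rintro _ ⟨_, ⟨i, rfl⟩, rfl⟩
      have e : z' i / z j = (⟨_, hxE (Sum.inl i)⟩ : E) • (1 : K) := by
        rw [Subring.smul_def, smul_eq_mul, mul_one]
        rfl
      change z' i / z j ∈ _
      rw [e]
      exact Submodule.smul_mem _ _ (Submodule.subset_span ⟨0, rfl⟩)
    · rw [Submodule.span_le]
      rintro _ ⟨_, rfl⟩
      have e : (1 : K) = (⟨_, huE⟩ : E) • (z' k / z j) := by
        rw [Subring.smul_def, smul_eq_mul, hz'x]
        change (1 : K) = z j / (x (Sum.inl k) : K) * ((x (Sum.inl k) : K) / z j)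
        field_simp
      change (1 : K) ∈ _
      rw [e]
      exact Submodule.smul_mem _ _ (Submodule.subset_span ⟨_, ⟨k, rfl⟩, rfl⟩)
  · have hsub := regP_sub hE2 (Sum.inl : Fin a → Fin a ⊕ Fin b) Sum.inl_injective
    refine ⟨a, _, hsub, ?_⟩
    have hval : ∀ i : Fin a, (if (Sum.inl i : Fin a ⊕ Fin b) ∈ Finset.univ.erase (Sum.inr k) then
        (x (Sum.inl i) : K) * ((x (Sum.inr k) : Q) : K)⁻¹ else (x (Sum.inl i) : K)) =
        z' i / (x (Sum.inr k) : K) := by
      intro i
      rw [if_pos (Finset.mem_erase.2 ⟨Sum.inl_ne_inr, Finset.mem_univ _⟩), div_eq_mul_inv, hz'x]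
    rw [hspanE]
    apply le_antisymm
    · rw [Submodule.span_le]
      rintro _ ⟨_, ⟨i, rfl⟩, rfl⟩
      have e : z' i / z j = (⟨_, hxE (Sum.inr k)⟩ : E) • (z' i / (x (Sum.inr k) : K)) := by
        rw [Subring.smul_def, smul_eq_mul]
        change z' i / z j = (x (Sum.inr k) : K) / z j * (z' i / (x (Sum.inr k) : K))
        field_simp
      change z' i / z j ∈ _
      rw [e]
      refine Submodule.smul_mem _ _ (Submodule.subset_span ⟨i, ?_⟩)
      exact hval i
    · rw [Submodule.span_le]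
      rintro _ ⟨i, rfl⟩
      have e : z' i / (x (Sum.inr k) : K) = (⟨_, huE⟩ : E) • (z' i / z j) := by
        rw [Subring.smul_def, smul_eq_mul]
        change z' i / (x (Sum.inr k) : K) = z j / (x (Sum.inr k) : K) * (z' i / z j)
        field_simp
      have e2 := hval i
      change (if (Sum.inl i : Fin a ⊕ Fin b) ∈ Finset.univ.erase (Sum.inr k) then
        (x (Sum.inl i) : K) * ((x (Sum.inr k) : Q) : K)⁻¹ else (x (Sum.inl i) : K)) ∈ _
      rw [e2, e]
      exact Submodule.smul_mem _ _ (Submodule.subset_span ⟨_, ⟨i, rfl⟩, rfl⟩)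

end Pool.Agent.N864.GR
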