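import Pool.Agent.N864.GR.Wonder

/-!
# Blowing up a product of regular centres closed under intersections: the induction
-/

set_option autoImplicit false
set_option linter.unusedSectionVars false
set_option linter.unusedVariables false

namespace Pool.Agent.N864.GR

open IsLocalRing Pool.Agent.Y223.G Pool.Agent.TH188.QS Pool.Agent.W418.LU2 Pool.Agent.TH188.ARC
  Pool.Agent.Y223.INV Pool.Agent.N864.GQ

variable {K : Type} [Field K] {W : ValuationSubring K}

/-- The greatest value on a set of generators. -/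
lemma exists_mv {Q : Subring K} {S : Set K} (hS : Rg W Q S) (hne : ∃ g ∈ S, g ≠ 0) :
    ∃ y ∈ S, y ≠ 0 ∧ ∀ g ∈ S, g / y ∈ W := by
  classical
  obtain ⟨c, z, hz, h⟩ := hS
  have hQW : Q ≤ W.toSubring := hz.PA
  have hK : Nonempty (Fin c) := by
    by_contra hcon
    rw [not_nonempty_iff] at hcon
    obtain ⟨g, hg, hg0⟩ := hne
    have h1 : g ∈ Submodule.span Q (Set.range z) := by
      rw [← h]
      exact Submodule.subset_span hg
    have h3 : Set.range z = ∅ := Set.range_eq_empty _
    rw [h3, Submodule.span_empty, Submodule.mem_bot] at h1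
    exact hg0 h1
  obtain ⟨j, hj⟩ := Finite.exists_max (fun i => W.valuation (z i))
  have hzj0 : z j ≠ 0 := hz.ne j
  have hpos : 0 < W.valuation (z j) := by
    rw [zero_lt_iff, Ne, map_eq_zero]
    exact hzj0
  have h1 : ∃ y ∈ S, W.valuation (z j) ≤ W.valuation y := by
    by_contra hcon
    push Not at hcon
    have h2 : ∀ x ∈ Submodule.span Q S, W.valuation x < W.valuation (z j) := by
      intro x hx
      induction hx using Submodule.span_induction with
      | mem x hx => exact hcon x hx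
      | zero => rwa [map_zero]
      | add a b _ _ ha hb => exact Valuation.map_add_lt _ ha hb
      | smul r a _ ha =>
        have e : r • a = (r : K) * a := rfl
        rw [e, map_mul]
        exact lt_of_le_of_lt (mul_le_of_le_one_left zero_le
          ((W.valuation_le_one_iff _).2 (hQW r.2))) ha
    exact lt_irrefl _ (h2 (z j) (by
      rw [h]
      exact Submodule.subset_span ⟨j, rfl⟩))
  obtain ⟨y, hy, hyz⟩ := h1
  have hy0 : y ≠ 0 := by
    rintro rfl
    rw [map_zero] at hyz
    exact not_lt.2 hyz hpos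
  refine ⟨y, hy, hy0, fun g hg => ?_⟩
  have h3 : W.valuation g ≤ W.valuation (z j) := by
    have h4 : g / z j ∈ W.toSubring := div_of_span (S := Set.range z) hQW (by
      rintro _ ⟨i, rfl⟩
      change z i / z j ∈ W
      rw [← W.valuation_le_one_iff, map_div₀]
      exact div_le_one_of_le₀ (hj i) zero_le) (by
      rw [← h]
      exact Submodule.subset_span hg)
    have h5 := (W.valuation_le_one_iff _).2 h4
    rw [map_div₀, div_le_one₀ hpos] at h5
    exact h5
  rw [← W.valuation_le_one_iff, map_div₀]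
  exact div_le_one_of_le₀ (h3.trans hyz) zero_le

/-- The local ring of the blowing up of a product of ideals with regular quotients, whose sums
are in the family. -/
theorem exists_wonder {ι : Type} (n : ℕ) : ∀ (Q : Subring K) (s : Finset ι) (G : ι → Set K),
    s.card ≤ n → IsRegularLocalRing Q → Q ≤ W.toSubring → IC W.toSubring Q →
    (∀ i ∈ s, Rg W Q (G i)) → (∀ i ∈ s, ∃ g ∈ G i, g ≠ 0) →
    (∀ i ∈ s, ∀ j ∈ s, (∀ g ∈ G i, NU W.toSubring g) → (∀ g ∈ G j, NU W.toSubring g) →
      ∃ l ∈ s, Submodule.span Q (G i ∪ G j) = Submodule.span Q (G l)) →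
    ∃ E : Subring K, IsRegularLocalRing E ∧ Q ≤ E ∧ E ≤ W.toSubring ∧ IC W.toSubring E ∧
      (∀ i ∈ s, ∀ y ∈ G i, y ≠ 0 → (∀ g ∈ G i, g / y ∈ W) → ∀ g ∈ G i, g / y ∈ E) ∧
      ∀ S : Subring K, Q ≤ S → IC W.toSubring S →
        (∀ i ∈ s, ∀ y ∈ G i, y ≠ 0 → (∀ g ∈ G i, g / y ∈ W) → ∀ g ∈ G i, g / y ∈ S) →
        E ≤ S := by
  classical
  induction n with
  | zero =>
    intro Q s G hs hreg hQW hIC _ _ _
    have hs0 : s = ∅ := Finset.card_eq_zero.1 (Nat.le_zero.1 hs)
    subst hs0
    exact ⟨Q, hreg, le_rfl, hQW, hIC, fun i hi => absurd hi (Finset.notMem_empty _),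
      fun S hS _ _ => hS⟩
  | succ n ih =>
    intro Q s G hs hreg hQW hIC hRg hne hcl
    -- the centres which are not empty
    have hunit : ∀ i ∈ s, (¬ ∀ g ∈ G i, NU W.toSubring g) → ∀ y ∈ G i, y ≠ 0 →
        (∀ g ∈ G i, g / y ∈ W) → ∀ g ∈ G i, g / y ∈ Q := by
      intro i hi hnu y hy hy0 hyW g hg
      push Not at hnu
      obtain ⟨u, hu, huU⟩ := hnu
      rw [NU, not_not] at huU
      have h1 : y⁻¹ ∈ W := by
        have e : y⁻¹ = (u / y) * u⁻¹ := by
          have := huU.1
          field_simp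
        rw [e]
        exact W.mul_mem _ _ (hyW u hu) huU.2
      have h2 : y⁻¹ ∈ Q := hIC _ (span_sub (hRg i hi) (Submodule.subset_span hy)) hy0 h1
      rw [div_eq_mul_inv]
      exact Q.mul_mem (span_sub (hRg i hi) (Submodule.subset_span hg)) h2
    by_cases hex : ∃ i ∈ s, ∀ g ∈ G i, NU W.toSubring g
    swap
    · refine ⟨Q, hreg, le_rfl, hQW, hIC, ?_, fun S hS _ _ => hS⟩
      intro i hi
      exact hunit i hi fun h => hex ⟨i, hi, h⟩
    set s' := s.filter (fun i => ∀ g ∈ G i, NU W.toSubring g) with hs'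
    have hs'ne : s'.Nonempty := by
      obtain ⟨i, hi, h⟩ := hex
      exact ⟨i, Finset.mem_filter.2 ⟨hi, h⟩⟩
    obtain ⟨i₀, hi₀, hi₀max⟩ := s'.exists_maximalFor (fun i => Submodule.span Q (G i)) hs'ne
    have hi₀s : i₀ ∈ s := (Finset.mem_filter.1 hi₀).1
    have hi₀p : ∀ g ∈ G i₀, NU W.toSubring g := (Finset.mem_filter.1 hi₀).2
    have hGQ : ∀ i ∈ s, ∀ g ∈ G i, g ∈ Q := fun i hi g hg =>
      span_sub (hRg i hi) (Submodule.subset_span hg)
    have hle : ∀ i ∈ s', Submodule.span Q (G i) ≤ Submodule.span Q (G i₀) := by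
      intro i hi
      have his := (Finset.mem_filter.1 hi).1
      have hip := (Finset.mem_filter.1 hi).2
      obtain ⟨l, hl, hlspan⟩ := hcl i his i₀ hi₀s hip hi₀p
      have hlp : l ∈ s' := by
        refine Finset.mem_filter.2 ⟨hl, fun g hg => ?_⟩
        refine (nu_span hQW (S := G i ∪ G i₀) ?_ ?_ (x := g) ?_).2
        · rintro x (hx | hx)
          · exact hQW (hGQ i his x hx)
          · exact hQW (hGQ i₀ hi₀s x hx)
        · rintro x (hx | hx)
          · exact hip x hx
          · exact hi₀p x hx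
        · rw [hlspan]
          exact Submodule.subset_span hg
      have h1 : Submodule.span Q (G i₀) ≤ Submodule.span Q (G l) := by
        rw [← hlspan]
        exact Submodule.span_mono Set.subset_union_right
      have h2 : Submodule.span Q (G l) ≤ Submodule.span Q (G i₀) := hi₀max hlp h1
      refine le_trans ?_ h2
      rw [← hlspan]
      exact Submodule.span_mono Set.subset_union_left
    obtain ⟨c, z, hz, hzspan⟩ := hRg i₀ hi₀s
    have hK : Nonempty (Fin c) := by
      by_contra hcon
      rw [not_nonempty_iff] at hcon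
      obtain ⟨g, hg, hg0⟩ := hne i₀ hi₀s
      have h1 : g ∈ Submodule.span Q (Set.range z) := by
        rw [← hzspan]
        exact Submodule.subset_span hg
      have h3 : Set.range z = ∅ := Set.range_eq_empty _
      rw [h3, Submodule.span_empty, Submodule.mem_bot] at h1
      exact hg0 h1
    obtain ⟨j, hj⟩ := Finite.exists_max (fun i => W.valuation (z i))
    have hzj0 : z j ≠ 0 := hz.ne j
    have hzW : ∀ i, z i / z j ∈ W := by
      intro i
      rw [← W.valuation_le_one_iff, map_div₀]
      exact div_le_one_of_le₀ (hj i) zero_le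
    obtain ⟨E₁, hE₁reg, hQE₁, hE₁W, hE₁IC, hzE₁, hE₁min⟩ := exists_blow hz j hzW
    have hzjS : z j ∈ Submodule.span Q (G i₀) := by
      rw [hzspan]
      exact Submodule.subset_span ⟨j, rfl⟩
    -- the new family
    set G₁ : ι → Set K := fun i => (fun x => x / z j) '' G i with hG₁
    set s₁ := s'.erase i₀ with hs₁
    have hs₁card : s₁.card ≤ n := by
      rw [hs₁, Finset.card_erase_of_mem hi₀]
      have h1 : s'.card ≤ s.card := Finset.card_filter_le _ _
      omega
    have hs₁s : ∀ i ∈ s₁, i ∈ s ∧ i ∈ s' := fun i hi =>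
      ⟨(Finset.mem_filter.1 (Finset.mem_of_mem_erase hi)).1, Finset.mem_of_mem_erase hi⟩
    have hcl₁ : ∀ i ∈ s₁, ∀ j' ∈ s₁, (∀ g ∈ G₁ i, NU W.toSubring g) →
        (∀ g ∈ G₁ j', NU W.toSubring g) →
        ∃ l ∈ s₁, Submodule.span E₁ (G₁ i ∪ G₁ j') = Submodule.span E₁ (G₁ l) := by
      intro i hi j' hj' hip hjp
      obtain ⟨l, hl, hlspan⟩ := hcl i (hs₁s i hi).1 j' (hs₁s j' hj').1
        (Finset.mem_filter.1 (hs₁s i hi).2).2 (Finset.mem_filter.1 (hs₁s j' hj').2).2
      have hlp : l ∈ s' := by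
        refine Finset.mem_filter.2 ⟨hl, fun g hg => ?_⟩
        refine (nu_span hQW (S := G i ∪ G j') ?_ ?_ (x := g) ?_).2
        · rintro x (hx | hx)
          · exact hQW (hGQ i (hs₁s i hi).1 x hx)
          · exact hQW (hGQ j' (hs₁s j' hj').1 x hx)
        · rintro x (hx | hx)
          · exact (Finset.mem_filter.1 (hs₁s i hi).2).2 x hx
          · exact (Finset.mem_filter.1 (hs₁s j' hj').2).2 x hx
        · rw [hlspan]
          exact Submodule.subset_span hg
      have himg : G₁ i ∪ G₁ j' = (fun x => x / z j) '' (G i ∪ G j') := (Set.image_union _ _ _).symm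
      have hspan₁ : Submodule.span E₁ (G₁ i ∪ G₁ j') = Submodule.span E₁ (G₁ l) := by
        rw [himg]
        exact le_antisymm (span_div hQE₁ hlspan.le _) (span_div hQE₁ hlspan.ge _)
      refine ⟨l, Finset.mem_erase.2 ⟨?_, hlp⟩, hspan₁⟩
      rintro rfl
      -- then `1` is a nonunit
      have h1 : z j / z j ∈ Submodule.span E₁ (G₁ l) := span_div_mem hQE₁ hzjS _
      rw [div_self hzj0, ← hspan₁] at h1
      have h2 : ∀ g ∈ G₁ i ∪ G₁ j', g ∈ W := by
        have h3 : ∀ i' ∈ s₁, ∀ g ∈ G₁ i', g ∈ W := by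
          rintro i' hi' _ ⟨g, hg, rfl⟩
          have h4 : g ∈ Submodule.span Q (Set.range z) := by
            rw [← hzspan]
            exact hle i' (hs₁s i' hi').2 (Submodule.subset_span hg)
          have h5 : g / z j ∈ W.toSubring := div_of_span (S := Set.range z) hQW (by
            rintro _ ⟨i, rfl⟩
            exact hzW i) h4
          exact h5
        rintro g (hg | hg)
        · exact h3 i hi g hg
        · exact h3 j' hj' g hg
      have h3 := (nu_span hE₁W h2 (by
        rintro g (hg | hg)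
        · exact hip g hg
        · exact hjp g hg) h1).2
      exact h3 ⟨one_ne_zero, by rw [inv_one]; exact W.one_mem⟩
    obtain ⟨E, hEreg, hE₁E, hEW, hEIC, hEdiv, hEmin⟩ := ih E₁ s₁ G₁ hs₁card hE₁reg hE₁W hE₁IC
      (fun i hi => rg_step (hRg i (hs₁s i hi).1) (Finset.mem_filter.1 (hs₁s i hi).2).2
        (hne i (hs₁s i hi).1) hz hzspan hi₀p (hle i (hs₁s i hi).2) j hzW hQE₁ hE₁W hE₁IC hzE₁
        hE₁min)
      (fun i hi => by
        obtain ⟨g, hg, hg0⟩ := hne i (hs₁s i hi).1
        exact ⟨g / z j, ⟨g, hg, rfl⟩, div_ne_zero hg0 hzj0⟩) hcl₁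
    have hGE₁ : ∀ i ∈ s', ∀ g ∈ G i, g / z j ∈ E₁ := by
      intro i hi g hg
      refine div_of_span (S := Set.range z) hQE₁ ?_ ?_
      · rintro _ ⟨l, rfl⟩
        exact hzE₁ l
      · rw [← hzspan]
        exact hle i hi (Submodule.subset_span hg)
    refine ⟨E, hEreg, hQE₁.trans hE₁E, hEW, hEIC, ?_, ?_⟩
    · intro i hi y hy hy0 hyW g hg
      by_cases hip : ∀ g ∈ G i, NU W.toSubring g
      swap
      · exact hE₁E (hQE₁ (hunit i hi hip y hy hy0 hyW g hg))
      have hi' : i ∈ s' := Finset.mem_filter.2 ⟨hi, hip⟩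
      by_cases hii : i = i₀
      · subst hii
        have h1 : z j / y ∈ W.toSubring := div_of_span (S := G i) hQW hyW hzjS
        have h2 : y / z j ∈ E₁ := hGE₁ i hi' y hy
        have h3 : z j / y ∈ E₁ := by
          rw [← inv_div]
          refine hE₁IC _ h2 (div_ne_zero hy0 hzj0) ?_
          rw [inv_div]
          exact h1
        have e : g / y = (g / z j) * (z j / y) := by field_simp
        rw [e]
        exact hE₁E (E₁.mul_mem (hGE₁ i hi' g hg) h3)
      · have h1 := hEdiv i (Finset.mem_erase.2 ⟨hii, hi'⟩) (y / z j) ⟨y, hy, rfl⟩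
          (div_ne_zero hy0 hzj0) (by
            rintro _ ⟨g', hg', rfl⟩
            change g' / z j / (y / z j) ∈ W
            have e : g' / z j / (y / z j) = g' / y := by field_simp
            rw [e]
            exact hyW g' hg') (g / z j) ⟨g, hg, rfl⟩
        have e : g / z j / (y / z j) = g / y := by field_simp
        rwa [e] at h1
    · intro S hQS hSIC hSdiv
      have hE₁S : E₁ ≤ S := by
        refine hE₁min S hQS hSIC ?_
        intro i
        obtain ⟨y, hy, hy0, hyW⟩ := exists_mv ⟨c, z, hz, hzspan⟩ (hne i₀ hi₀s)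
        have h1 : ∀ g ∈ G i₀, g / y ∈ S := hSdiv i₀ hi₀s y hy hy0 hyW
        have h2 : z j / y ∈ S := div_of_span (S := G i₀) hQS h1 hzjS
        have h3 : z i / y ∈ S := div_of_span (S := G i₀) hQS h1 (by
          rw [hzspan]
          exact Submodule.subset_span ⟨i, rfl⟩)
        have h4 : (z j / y)⁻¹ ∈ S := by
          refine hSIC _ h2 (div_ne_zero hzj0 hy0) ?_
          rw [inv_div]
          exact hE₁W (hGE₁ i₀ hi₀ y hy)
        have e : z i / z j = (z i / y) * (z j / y)⁻¹ := by field_simp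
        rw [e]
        exact S.mul_mem h3 h4
      refine hEmin S hE₁S hSIC ?_
      rintro i hi _ ⟨y, hy, rfl⟩ hy0 hyW _ ⟨g, hg, rfl⟩
      have hy0' : y ≠ 0 := by
        rintro rfl
        exact hy0 (zero_div _)
      change g / z j / (y / z j) ∈ S
      have e : ∀ g, g / z j / (y / z j) = g / y := by
        intro g
        field_simp
      rw [e]
      refine hSdiv i (hs₁s i hi).1 y hy hy0' ?_ g hg
      intro g' hg'
      have h1 := hyW _ ⟨g', hg', rfl⟩
      change g' / z j / (y / z j) ∈ W at h1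
      rwa [e] at h1

end Pool.Agent.N864.GR
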